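import Pool.Agent.helper36.LT.Structs

set_option autoImplicit false

/-!
# Module M9, part A: types, classes, edges and triangles of the realisation
-/

namespace Pool.Agent.helper20.LT9

open Pool.Agent.helper34 Pool.Agent.helper36.LT

variable {S B : Type}

/-- the type of chambers -/
def t0 : Ty S := ⟨∅, Or.inl rfl⟩

/-- the types of panels -/
def t1 (s : S) : Ty S := ⟨{s}, Or.inr (Or.inl ⟨s, rfl⟩)⟩

/-- the types of rank two classes -/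
def t2 (s t : S) (h : s ≠ t) : Ty S := ⟨{s, t}, Or.inr (Or.inr ⟨s, t, h, rfl⟩)⟩

lemma ty0 : IsTy (∅ : Set S) := Or.inl rfl

lemma ty1 (s : S) : IsTy ({s} : Set S) := Or.inr (Or.inl ⟨s, rfl⟩)

lemma ty2 {s t : S} (h : s ≠ t) : IsTy ({s, t} : Set S) := Or.inr (Or.inr ⟨s, t, h, rfl⟩)

lemma ty_cases (T : Ty S) : T = t0 ∨ (∃ s, T = t1 s) ∨ ∃ s t, ∃ h : s ≠ t, T = t2 s t h := by
  obtain ⟨T, hT⟩ := T
  rcases hT with h | ⟨s, h⟩ | ⟨s, t, hst, h⟩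
  · left; subst h; rfl
  · right; left; subst h; exact ⟨s, rfl⟩
  · right; right; subst h; exact ⟨s, t, hst, rfl⟩

lemma t2_comm (s t : S) (h : s ≠ t) : t2 s t h = t2 t s h.symm :=
  Subtype.ext (Set.pair_comm s t)

lemma t0_ne_t1 (s : S) : (t0 : Ty S) ≠ t1 s := by
  intro h
  have h1 : (∅ : Set S) = {s} := congrArg Subtype.val h
  have h2 : s ∈ (∅ : Set S) := by rw [h1]; rfl
  exact h2

lemma t0_ne_t2 (s t : S) (h : s ≠ t) : (t0 : Ty S) ≠ t2 s t h := by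
  intro h'
  have h1 : (∅ : Set S) = {s, t} := congrArg Subtype.val h'
  have h2 : s ∈ (∅ : Set S) := by rw [h1]; exact Set.mem_insert _ _
  exact h2

lemma t1_ne_t2 (u s t : S) (h : s ≠ t) : (t1 u : Ty S) ≠ t2 s t h := by
  intro h'
  have h1 : ({u} : Set S) = {s, t} := congrArg Subtype.val h'
  have h2 : s ∈ ({u} : Set S) := by rw [h1]; exact Set.mem_insert _ _
  have h3 : t ∈ ({u} : Set S) := by rw [h1]; exact Set.mem_insert_of_mem _ rfl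
  exact h (h2.trans h3.symm)

lemma t1_inj {s t : S} (h : (t1 s : Ty S) = t1 t) : s = t := by
  have h1 : ({s} : Set S) = {t} := congrArg Subtype.val h
  have h2 : s ∈ ({t} : Set S) := by rw [← h1]; rfl
  exact h2

lemma pair_cases {s t u v : S} (h : s ≠ t) (h' : ({s, t} : Set S) = {u, v}) :
    (s = u ∧ t = v) ∨ (s = v ∧ t = u) := by
  have h1 : s ∈ ({u, v} : Set S) := by rw [← h']; exact Set.mem_insert _ _
  have h2 : t ∈ ({u, v} : Set S) := by rw [← h']; exact Set.mem_insert_of_mem _ rfl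
  rcases h1 with h1 | h1 <;> rcases h2 with h2 | h2
  · exact absurd (h1.trans h2.symm) h
  · exact Or.inl ⟨h1, h2⟩
  · exact Or.inr ⟨h1, h2⟩
  · exact absurd (h1.trans (Set.mem_singleton_iff.1 h2).symm) h

lemma cl_eq {Y : Sys S B} {T T' : Ty S} {b b' : B} :
    cl Y T b = cl Y T' b' ↔ T = T' ∧ Y.r T.1 b b' := by
  constructor
  · intro h
    have h1 : T = T' := congrArg Sigma.fst h
    subst h1
    refine ⟨rfl, ?_⟩
    have h2 : (Quotient.mk (Y.setoid T) b) = (Quotient.mk (Y.setoid T) b') := by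
      have := (Sigma.mk.inj_iff.1 h).2
      exact eq_of_heq this
    exact Quotient.exact h2
  · rintro ⟨rfl, h⟩
    unfold cl
    congr 1
    exact Quotient.sound h

lemma cl_surj {Y : Sys S B} (v : Vert Y) : ∃ T b, v = cl Y T b := by
  obtain ⟨T, q⟩ := v
  obtain ⟨b, hb⟩ := Quotient.exists_rep q
  exact ⟨T, b, by unfold cl; rw [hb]⟩

lemma cl_congr {Y : Sys S B} {T : Ty S} {b b' : B} (h : Y.r T.1 b b') : cl Y T b = cl Y T b' :=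
  cl_eq.2 ⟨rfl, h⟩

lemma r_refl (Y : Sys S B) (T : Ty S) (b : B) : Y.r T.1 b b := Y.refl _ _ T.2

/-- chambers with the same vertex are equal -/
lemma cl0_inj {Y : Sys S B} {b b' : B} (h : cl Y t0 b = cl Y t0 b') : b = b' :=
  Y.zero _ _ (cl_eq.1 h).2

lemma sub12 {Y : Sys S B} {s t : S} (h : s ≠ t) {b c : B} (hr : Y.r {s} b c) :
    Y.r {s, t} b c :=
  Y.mono _ _ _ _ (by intro x hx; exact Or.inl hx) (ty1 s) (ty2 h) hr

lemma sub12' {Y : Sys S B} {s t : S} (h : s ≠ t) {b c : B} (hr : Y.r {t} b c) :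
    Y.r {s, t} b c :=
  Y.mono _ _ _ _ (by intro x hx; exact Or.inr hx) (ty1 t) (ty2 h) hr

lemma sub_cases (T T' : Ty S) (h : T.1 ⊂ T'.1) :
    (T = t0 ∧ ((∃ s, T' = t1 s) ∨ ∃ s t, ∃ h : s ≠ t, T' = t2 s t h)) ∨
      ∃ s t, ∃ h : s ≠ t, T = t1 s ∧ T' = t2 s t h := by
  rcases ty_cases T with rfl | ⟨s, rfl⟩ | ⟨s, t, hst, rfl⟩
  · left
    refine ⟨rfl, ?_⟩
    rcases ty_cases T' with rfl | ⟨s, rfl⟩ | ⟨s, t, hst, rfl⟩
    · exact absurd h (ssubset_irrefl _)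
    · exact Or.inl ⟨s, rfl⟩
    · exact Or.inr ⟨s, t, hst, rfl⟩
  · right
    rcases ty_cases T' with rfl | ⟨u, rfl⟩ | ⟨u, v, huv, rfl⟩
    · exact absurd (h.1 (Set.mem_singleton s)) (Set.notMem_empty s)
    · have h1 : s = u := h.1 (Set.mem_singleton s)
      subst h1
      exact absurd h (ssubset_irrefl _)
    · have h1 : s = u ∨ s = v := h.1 (Set.mem_singleton s)
      rcases h1 with rfl | rfl
      · exact ⟨s, v, huv, rfl, rfl⟩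
      · exact ⟨s, u, huv.symm, rfl, t2_comm u s huv⟩
  · exfalso
    rcases ty_cases T' with rfl | ⟨u, rfl⟩ | ⟨u, v, huv, rfl⟩
    · exact absurd (h.1 (Set.mem_insert s {t})) (Set.notMem_empty s)
    · have h1 : s = u := h.1 (Set.mem_insert s {t})
      have h2 : t = u := h.1 (Set.mem_insert_of_mem _ rfl)
      exact hst (h1.trans h2.symm)
    · have h1 : s = u ∨ s = v := h.1 (Set.mem_insert s {t})
      have h2 : t = u ∨ t = v := h.1 (Set.mem_insert_of_mem _ rfl)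
      have h3 : ({u, v} : Set S) ⊆ {s, t} := by
        rcases h1 with rfl | rfl <;> rcases h2 with rfl | rfl
        · exact absurd rfl hst
        · exact le_rfl
        · rw [Set.pair_comm]
        · exact absurd rfl hst
      exact h.2 h3

lemma cmp01 (s : S) : Cmp (t0 : Ty S) (t1 s) := by
  left
  refine ⟨Set.empty_subset _, fun h => ?_⟩
  exact h (Set.mem_singleton s)

lemma cmp02 (s t : S) (h : s ≠ t) : Cmp (t0 : Ty S) (t2 s t h) := by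
  left
  refine ⟨Set.empty_subset _, fun h => ?_⟩
  exact h (Set.mem_insert s _)

lemma cmp12 (s t : S) (h : s ≠ t) : Cmp (t1 s : Ty S) (t2 s t h) := by
  left
  refine ⟨?_, fun h' => ?_⟩
  · intro x hx; exact Or.inl hx
  · have h1 : t ∈ ({s} : Set S) := h' (Set.mem_insert_of_mem _ rfl)
    exact h h1.symm

lemma cmp12' (s t : S) (h : s ≠ t) : Cmp (t1 t : Ty S) (t2 s t h) := by
  rw [t2_comm]; exact cmp12 _ _ _

lemma Cmp.symm' {T T' : Ty S} (h : Cmp T T') : Cmp T' T := Or.symm h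

/-! ## edges -/

lemma edge0 {Y : Sys S B} {b : B} {y : Vert Y} (h : (cx Y).edge (cl Y t0 b) y) :
    (∃ s, y = cl Y (t1 s) b) ∨ ∃ s t, ∃ h : s ≠ t, y = cl Y (t2 s t h) b := by
  obtain ⟨c, T, T', hc, h1, rfl⟩ := h
  obtain ⟨rfl, h2⟩ := cl_eq.1 h1
  have h3 : b = c := Y.zero _ _ h2
  subst h3
  rcases hc with hc | hc
  · rcases sub_cases _ _ hc with ⟨_, ⟨s, rfl⟩ | ⟨s, t, h, rfl⟩⟩ | ⟨s, t, h, h1, rfl⟩
    · exact Or.inl ⟨s, rfl⟩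
    · exact Or.inr ⟨s, t, h, rfl⟩
    · exact absurd h1 (t0_ne_t1 _)
  · rcases sub_cases _ _ hc with ⟨rfl, _⟩ | ⟨s, t, h, rfl, h'⟩
    · exact absurd hc (ssubset_irrefl _)
    · exact absurd h' (t0_ne_t2 _ _ _)

lemma edge1 {Y : Sys S B} {b : B} {s : S} {y : Vert Y} (h : (cx Y).edge (cl Y (t1 s) b) y) :
    (∃ b', Y.r {s} b b' ∧ y = cl Y t0 b') ∨ ∃ t, ∃ h : s ≠ t, y = cl Y (t2 s t h) b := by
  obtain ⟨c, T, T', hc, h1, rfl⟩ := h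
  obtain ⟨rfl, h2⟩ := cl_eq.1 h1
  rcases hc with hc | hc
  · rcases sub_cases _ _ hc with ⟨h', _⟩ | ⟨u, t, h, h1, rfl⟩
    · exact absurd h'.symm (t0_ne_t1 _)
    · have := t1_inj h1
      subst this
      exact Or.inr ⟨t, h, (cl_congr (sub12 h h2)).symm⟩
  · rcases sub_cases _ _ hc with ⟨rfl, _⟩ | ⟨u, t, h, rfl, h'⟩
    · exact Or.inl ⟨c, h2, rfl⟩
    · exact absurd h' (t1_ne_t2 _ _ _ _)

lemma edge2 {Y : Sys S B} {b : B} {s t : S} {hst : s ≠ t} {y : Vert Y}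
    (h : (cx Y).edge (cl Y (t2 s t hst) b) y) :
    ∃ b', Y.r {s, t} b b' ∧ (y = cl Y t0 b' ∨ y = cl Y (t1 s) b' ∨ y = cl Y (t1 t) b') := by
  obtain ⟨c, T, T', hc, h1, rfl⟩ := h
  obtain ⟨rfl, h2⟩ := cl_eq.1 h1
  rcases hc with hc | hc
  · rcases sub_cases _ _ hc with ⟨h', _⟩ | ⟨u, t, h, h1, rfl⟩
    · exact absurd h'.symm (t0_ne_t2 _ _ _)
    · exact absurd h1.symm (t1_ne_t2 _ _ _ _)
  · rcases sub_cases _ _ hc with ⟨rfl, _⟩ | ⟨u, v, h, rfl, h'⟩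
    · exact ⟨c, h2, Or.inl rfl⟩
    · have h3 := pair_cases hst (congrArg Subtype.val h')
      rcases h3 with ⟨rfl, rfl⟩ | ⟨rfl, rfl⟩
      · exact ⟨c, h2, Or.inr (Or.inl rfl)⟩
      · exact ⟨c, h2, Or.inr (Or.inr rfl)⟩

lemma edge01 (Y : Sys S B) (b : B) (s : S) : (cx Y).edge (cl Y t0 b) (cl Y (t1 s) b) :=
  ⟨b, _, _, cmp01 s, rfl, rfl⟩

lemma edge02 (Y : Sys S B) (b : B) (s t : S) (h : s ≠ t) :
    (cx Y).edge (cl Y t0 b) (cl Y (t2 s t h) b) :=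
  ⟨b, _, _, cmp02 s t h, rfl, rfl⟩

lemma edge12 (Y : Sys S B) (b : B) (s t : S) (h : s ≠ t) :
    (cx Y).edge (cl Y (t1 s) b) (cl Y (t2 s t h) b) :=
  ⟨b, _, _, cmp12 s t h, rfl, rfl⟩

lemma edge12' (Y : Sys S B) (b : B) (s t : S) (h : s ≠ t) :
    (cx Y).edge (cl Y (t1 t) b) (cl Y (t2 s t h) b) :=
  ⟨b, _, _, cmp12' s t h, rfl, rfl⟩

/-! ## triangles -/

/-- the standard triangle -/
lemma tri012 (Y : Sys S B) (b : B) (s t : S) (h : s ≠ t) :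
    (cx Y).tri (cl Y t0 b) (cl Y (t1 s) b) (cl Y (t2 s t h) b) :=
  ⟨b, _, _, _, cmp01 s, cmp12 s t h, cmp02 s t h, rfl, rfl, rfl⟩

/-- every triangle is a standard triangle up to a permutation -/
lemma tri_cases {Y : Sys S B} {x y z : Vert Y} (h : (cx Y).tri x y z) :
    ∃ b s t, ∃ h : s ≠ t,
      (x = cl Y t0 b ∧ y = cl Y (t1 s) b ∧ z = cl Y (t2 s t h) b) ∨
      (x = cl Y t0 b ∧ z = cl Y (t1 s) b ∧ y = cl Y (t2 s t h) b) ∨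
      (y = cl Y t0 b ∧ x = cl Y (t1 s) b ∧ z = cl Y (t2 s t h) b) ∨
      (y = cl Y t0 b ∧ z = cl Y (t1 s) b ∧ x = cl Y (t2 s t h) b) ∨
      (z = cl Y t0 b ∧ x = cl Y (t1 s) b ∧ y = cl Y (t2 s t h) b) ∨
      (z = cl Y t0 b ∧ y = cl Y (t1 s) b ∧ x = cl Y (t2 s t h) b) := by
  obtain ⟨b, T, T', T'', h1, h2, h3, rfl, rfl, rfl⟩ := h
  have key : ∀ (U V W : Ty S), U.1 ⊂ V.1 → V.1 ⊂ W.1 →
      ∃ s t, ∃ h : s ≠ t, U = t0 ∧ V = t1 s ∧ W = t2 s t h := by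
    intro U V W h1 h2
    rcases sub_cases _ _ h1 with ⟨rfl, _⟩ | ⟨s, t, h, rfl, rfl⟩
    · rcases sub_cases _ _ h2 with ⟨rfl, _⟩ | ⟨s, t, h, rfl, rfl⟩
      · exact absurd h1 (ssubset_irrefl _)
      · exact ⟨s, t, h, rfl, rfl, rfl⟩
    · rcases sub_cases _ _ h2 with ⟨h', _⟩ | ⟨u, v, h', h'', rfl⟩
      · exact absurd h'.symm (t0_ne_t2 _ _ _)
      · exact absurd h''.symm (t1_ne_t2 _ _ _ _)
  have irr : ∀ (U V W : Ty S), U.1 ⊂ V.1 → V.1 ⊂ W.1 → W.1 ⊂ U.1 → False :=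
    fun U V W h1 h2 h3 => ssubset_irrefl _ (h1.trans (h2.trans h3))
  rcases h1 with h1 | h1 <;> rcases h2 with h2 | h2 <;> rcases h3 with h3 | h3
  · obtain ⟨s, t, h, rfl, rfl, rfl⟩ := key _ _ _ h1 h2
    exact ⟨b, s, t, h, Or.inl ⟨rfl, rfl, rfl⟩⟩
  · exact (irr _ _ _ h1 h2 h3).elim
  · obtain ⟨s, t, h, rfl, rfl, rfl⟩ := key _ _ _ h3 h2
    exact ⟨b, s, t, h, Or.inr (Or.inl ⟨rfl, rfl, rfl⟩)⟩
  · obtain ⟨s, t, h, rfl, rfl, rfl⟩ := key _ _ _ h3 h1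
    exact ⟨b, s, t, h, Or.inr (Or.inr (Or.inr (Or.inr (Or.inl ⟨rfl, rfl, rfl⟩))))⟩
  · obtain ⟨s, t, h, rfl, rfl, rfl⟩ := key _ _ _ h1 h3
    exact ⟨b, s, t, h, Or.inr (Or.inr (Or.inl ⟨rfl, rfl, rfl⟩))⟩
  · obtain ⟨s, t, h, rfl, rfl, rfl⟩ := key _ _ _ h2 h3
    exact ⟨b, s, t, h, Or.inr (Or.inr (Or.inr (Or.inl ⟨rfl, rfl, rfl⟩)))⟩
  · exact (irr _ _ _ h1 h3 h2).elim
  · obtain ⟨s, t, h, rfl, rfl, rfl⟩ := key _ _ _ h2 h1
    exact ⟨b, s, t, h, Or.inr (Or.inr (Or.inr (Or.inr (Or.inr ⟨rfl, rfl, rfl⟩))))⟩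

lemma tri0 {Y : Sys S B} {b : B} {y z : Vert Y} (h : (cx Y).tri (cl Y t0 b) y z) :
    ∃ s t, ∃ h : s ≠ t, (y = cl Y (t1 s) b ∧ z = cl Y (t2 s t h) b) ∨
      (z = cl Y (t1 s) b ∧ y = cl Y (t2 s t h) b) := by
  obtain ⟨c, s, t, hst, h | h | h | h | h | h⟩ := tri_cases h
  · obtain ⟨h1, rfl, rfl⟩ := h
    have := cl0_inj h1; subst this
    exact ⟨s, t, hst, Or.inl ⟨rfl, rfl⟩⟩
  · obtain ⟨h1, rfl, rfl⟩ := h
    have := cl0_inj h1; subst this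
    exact ⟨s, t, hst, Or.inr ⟨rfl, rfl⟩⟩
  · exact absurd (cl_eq.1 h.2.1).1 (t0_ne_t1 _)
  · exact absurd (cl_eq.1 h.2.2).1 (t0_ne_t2 _ _ _)
  · exact absurd (cl_eq.1 h.2.1).1 (t0_ne_t1 _)
  · exact absurd (cl_eq.1 h.2.2).1 (t0_ne_t2 _ _ _)

lemma tri1 {Y : Sys S B} {b : B} {s : S} {y z : Vert Y} (h : (cx Y).tri (cl Y (t1 s) b) y z) :
    ∃ b', Y.r {s} b b' ∧ ∃ t, ∃ h : s ≠ t,
      (y = cl Y t0 b' ∧ z = cl Y (t2 s t h) b') ∨ (z = cl Y t0 b' ∧ y = cl Y (t2 s t h) b') := by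
  obtain ⟨c, u, t, hut, h | h | h | h | h | h⟩ := tri_cases h
  · exact absurd (cl_eq.1 h.1).1.symm (t0_ne_t1 _)
  · exact absurd (cl_eq.1 h.1).1.symm (t0_ne_t1 _)
  · obtain ⟨rfl, h1, rfl⟩ := h
    obtain ⟨h1, h2⟩ := cl_eq.1 h1
    have := t1_inj h1; subst this
    exact ⟨c, h2, t, hut, Or.inl ⟨rfl, rfl⟩⟩
  · exact absurd (cl_eq.1 h.2.2).1 (t1_ne_t2 _ _ _ _)
  · obtain ⟨rfl, h1, rfl⟩ := h
    obtain ⟨h1, h2⟩ := cl_eq.1 h1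
    have := t1_inj h1; subst this
    exact ⟨c, h2, t, hut, Or.inr ⟨rfl, rfl⟩⟩
  · exact absurd (cl_eq.1 h.2.2).1 (t1_ne_t2 _ _ _ _)

lemma tri2 {Y : Sys S B} {b : B} {s t : S} {hst : s ≠ t} {y z : Vert Y}
    (h : (cx Y).tri (cl Y (t2 s t hst) b) y z) :
    ∃ b', Y.r {s, t} b b' ∧ ∃ a, (a = s ∨ a = t) ∧
      ((y = cl Y t0 b' ∧ z = cl Y (t1 a) b') ∨ (z = cl Y t0 b' ∧ y = cl Y (t1 a) b')) := by
  obtain ⟨c, u, v, huv, h | h | h | h | h | h⟩ := tri_cases h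
  · exact absurd (cl_eq.1 h.1).1.symm (t0_ne_t2 _ _ _)
  · exact absurd (cl_eq.1 h.1).1.symm (t0_ne_t2 _ _ _)
  · exact absurd (cl_eq.1 h.2.1).1.symm (t1_ne_t2 _ _ _ _)
  · obtain ⟨rfl, rfl, h1⟩ := h
    obtain ⟨h1, h2⟩ := cl_eq.1 h1
    rcases pair_cases hst (congrArg Subtype.val h1) with ⟨rfl, rfl⟩ | ⟨rfl, rfl⟩
    · exact ⟨c, h2, s, Or.inl rfl, Or.inl ⟨rfl, rfl⟩⟩
    · exact ⟨c, h2, t, Or.inr rfl, Or.inl ⟨rfl, rfl⟩⟩
  · exact absurd (cl_eq.1 h.2.1).1.symm (t1_ne_t2 _ _ _ _)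
  · obtain ⟨rfl, rfl, h1⟩ := h
    obtain ⟨h1, h2⟩ := cl_eq.1 h1
    rcases pair_cases hst (congrArg Subtype.val h1) with ⟨rfl, rfl⟩ | ⟨rfl, rfl⟩
    · exact ⟨c, h2, s, Or.inl rfl, Or.inr ⟨rfl, rfl⟩⟩
    · exact ⟨c, h2, t, Or.inr rfl, Or.inr ⟨rfl, rfl⟩⟩

/-! ## symmetries of triangles -/

lemma tri_a {Y : Sys S B} (b : B) (s t : S) (h : s ≠ t) :
    (cx Y).tri (cl Y t0 b) (cl Y (t2 s t h) b) (cl Y (t1 s) b) := by
  have h1 := tri012 Y b s t h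
  exact (cx Y).tri_swap _ _ _ ((cx Y).tri_rot _ _ _ ((cx Y).tri_rot _ _ _ h1))

lemma tri_b {Y : Sys S B} (b : B) (s t : S) (h : s ≠ t) :
    (cx Y).tri (cl Y (t1 s) b) (cl Y (t2 s t h) b) (cl Y t0 b) :=
  (cx Y).tri_rot _ _ _ (tri012 Y b s t h)

lemma tri_c {Y : Sys S B} (b : B) (s t : S) (h : s ≠ t) :
    (cx Y).tri (cl Y (t1 s) b) (cl Y t0 b) (cl Y (t2 s t h) b) :=
  (cx Y).tri_swap _ _ _ (tri012 Y b s t h)

lemma tri_d {Y : Sys S B} (b : B) (s t : S) (h : s ≠ t) :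
    (cx Y).tri (cl Y (t2 s t h) b) (cl Y t0 b) (cl Y (t1 s) b) :=
  (cx Y).tri_rot _ _ _ ((cx Y).tri_rot _ _ _ (tri012 Y b s t h))

lemma tri_e {Y : Sys S B} (b : B) (s t : S) (h : s ≠ t) :
    (cx Y).tri (cl Y (t2 s t h) b) (cl Y (t1 s) b) (cl Y t0 b) :=
  (cx Y).tri_swap _ _ _ (tri_b b s t h)

lemma VMk_cl {Y : Sys S B} {Mk : Set S → B → Prop} (hMk : Marks Y Mk) (T : Ty S) (b : B) :
    VMk Y Mk (cl Y T b) ↔ Mk T.1 b := by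
  constructor
  · rintro ⟨c, h1, h2⟩
    have h3 := (cl_eq.1 h1).2
    exact hMk.congr _ _ _ T.2 (Y.symm _ _ _ T.2 h3) h2
  · intro h
    exact ⟨b, rfl, h⟩

end Pool.Agent.helper20.LT9
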