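import Pool.Agent.helper20.LT9.A

set_option autoImplicit false

/-!
# Module M9, part B: gates, and the bound for straight chains
-/

namespace Pool.Agent.helper20.LT9

open Pool.Agent.helper34 Pool.Agent.helper36.LT

variable {S B : Type} {Y : Sys S B}

/-- `g` is a gate of type `s` -/
def Gate (D : BFS Y) (g : B) (s : S) : Prop := g = D.b0 ∨ ∃ u v, D.Ed g u v ∧ s ≠ u ∧ s ≠ v

lemma Gate.not_ve {D : BFS Y} {g : B} {s : S} (h : Gate D g s) (t : S) : ¬ D.Ve g t := by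
  rcases h with rfl | ⟨u, v, h, -, -⟩
  · exact D.ve_b0 t
  · exact D.ed_ve _ _ _ _ h

lemma Gate.not_ed {D : BFS Y} {g : B} {s : S} (h : Gate D g s) (t : S) : ¬ D.Ed g s t := by
  rcases h with rfl | ⟨u, v, h, h1, h2⟩
  · exact D.ed_b0 s t
  · intro h'
    rcases D.ed_uniq _ _ _ _ _ h' h with h3 | h3
    · exact h1 h3.1
    · exact h2 h3.1

lemma Gate.not_ed' {D : BFS Y} {g : B} {s : S} (h : Gate D g s) (t : S) : ¬ D.Ed g t s :=
  fun h' => h.not_ed t (D.ed_symm _ _ _ h')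

lemma gate_uniq {D : BFS Y} {g g' : B} {s : S} (h : Gate D g s) (h' : Gate D g' s)
    (hr : Y.r {s} g g') : g = g' := by
  by_contra hne
  have h1 := D.gate_ve g g' s h hr (fun h => hne h.symm)
  exact h'.not_ve s h1.2

lemma r1s {s : S} {b c : B} (h : Y.r {s} b c) : Y.r {s} c b := Y.symm _ _ _ (ty1 s) h

lemma r1t {s : S} {b c d : B} (h : Y.r {s} b c) (h' : Y.r {s} c d) : Y.r {s} b d :=
  Y.trans _ _ _ _ (ty1 s) h h'

lemma r2s {s t : S} (hst : s ≠ t) {b c : B} (h : Y.r {s, t} b c) : Y.r {s, t} c b :=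
  Y.symm _ _ _ (ty2 hst) h

lemma r2t {s t : S} (hst : s ≠ t) {b c d : B} (h : Y.r {s, t} b c) (h' : Y.r {s, t} c d) :
    Y.r {s, t} b d :=
  Y.trans _ _ _ _ (ty2 hst) h h'

/-- the analysis of the class `[g]_{t,w}` below a link `g` of two `c2`-classes -/
lemma proj {D : BFS Y} {b b₁ g : B} {w t : S} (hb : D.Ve b w) (hb₁ : D.Ve b₁ t) (hwt : w ≠ t)
    (h1 : Y.r {t} b g) (h2 : g ≠ b) (h3 : Y.r {w} b₁ g) (h4 : g ≠ b₁) :
    ∃ b' w' l l₁, D.Ve b' w' ∧ w' ≠ t ∧ w' ≠ w ∧ Y.r {w} b l ∧ Gate D l w ∧ Y.r {t} b₁ l₁ ∧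
      Gate D l₁ t ∧ Y.r {t} b' l ∧ l ≠ b' ∧ Y.r {w} b' l₁ ∧ l₁ ≠ b' ∧
      D.lev b' + 1 = D.lev b := by
  obtain ⟨l, hl1, hl2, hl3⟩ := D.ve_gate b w hb
  obtain ⟨l₁, hm1, hm2, hm3⟩ := D.ve_gate b₁ t hb₁
  have hl3 : Gate D l w := hl3
  have hm3 : Gate D l₁ t := hm3
  have e1 : D.lev g = D.lev b := (D.flat_ve b g t w hb (Ne.symm hwt) h1 h2).1
  have e2 : D.lev g = D.lev b₁ := (D.flat_ve b₁ g w t hb₁ hwt h3 h4).1
  have e3 : D.lev l₁ = D.lev l := by omega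
  -- everything is in one class
  have c1 : Y.r {t, w} l b := sub12' (Ne.symm hwt) (r1s hl1)
  have c2 : Y.r {t, w} b g := sub12 (Ne.symm hwt) h1
  have c3 : Y.r {t, w} g b₁ := sub12' (Ne.symm hwt) (r1s h3)
  have c4 : Y.r {t, w} b₁ l₁ := sub12 (Ne.symm hwt) hm1
  have htw : t ≠ w := Ne.symm hwt
  have c5 : Y.r {t, w} l l₁ := r2t htw (r2t htw (r2t htw c1 c2) c3) c4
  have nl : l₁ ≠ l := by
    intro h
    rw [h] at hm1
    rcases Y.four w t l b g b₁ hwt (r1s hl1) h1 (r1s h3) hm1 with h5 | h5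
    · rw [h5] at hl2; omega
    · exact h2 h5.symm
  have low3 : (l = D.b0 ∨ ∃ u v, D.Ed l u v ∧ t ≠ u ∧ t ≠ v ∧ w ≠ u ∧ w ≠ v) → False :=
    fun h => nl (D.low3 l l₁ t w htw h c5 e3)
  have key : ∀ v, D.Ed l t v → ∃ b' w' l l₁, D.Ve b' w' ∧ w' ≠ t ∧ w' ≠ w ∧ Y.r {w} b l ∧
      Gate D l w ∧ Y.r {t} b₁ l₁ ∧ Gate D l₁ t ∧ Y.r {t} b' l ∧ l ≠ b' ∧ Y.r {w} b' l₁ ∧
      l₁ ≠ b' ∧ D.lev b' + 1 = D.lev b := by
    intro v hv
    have hvw : v ≠ w := by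
      rintro rfl
      exact hl3.not_ed' t hv
    have hvt : v ≠ t := (D.ed_ne _ _ _ hv).symm
    by_cases hex : ∃ b'', Y.r {t} l b'' ∧ D.Ve b'' v
    · obtain ⟨b', hb1, hb2⟩ := hex
      have e4 : D.lev b' = D.lev l := (D.flat_ed l b' t v hv hb1).1
      have c6 : Y.r {t, w} b' l₁ := r2t htw (sub12 htw (r1s hb1)) c5
      have n1 : l₁ ≠ b' := by
        rintro rfl
        exact hm3.not_ve _ hb2
      refine ⟨b', v, l, l₁, hb2, hvt, hvw, hl1, hl3, hm1, hm3, r1s hb1, ?_, ?_, n1, by omega⟩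
      · rintro rfl
        exact D.ed_ve _ _ _ _ hv hb2
      · rcases D.low2 b' l₁ t w v htw hb2 hvt hvw c6 (by omega) with h | h
        · exact absurd (D.flat_ve b' l₁ t v hb2 hvt.symm h n1).2 (hm3.not_ed _)
        · exact h
    · push Not at hex
      have h5 := D.low1 l l₁ t w v htw hv hvw (fun b'' h => hex b'' h) c5 e3
      rcases (D.flat_ed l l₁ t v hv h5).2 with h6 | h6
      · exact absurd h6 (hm3.not_ed _)
      · exact absurd h6 (hm3.not_ve _)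
  rcases hl3 with hl0 | ⟨u, v, huv, hu, hv⟩
  · exact (low3 (Or.inl hl0)).elim
  · by_cases htu : t = u
    · subst htu
      exact key v huv
    · by_cases htv : t = v
      · subst htv
        exact key u (D.ed_symm _ _ _ huv)
      · exact (low3 (Or.inr ⟨u, v, huv, htu, htv, hu, hv⟩)).elim

/-- straight chains -/
def ST (D : BFS Y) : ℕ → B → S → S → S → Prop
  | 0, b, w, s, t => D.Ve b w ∧ w ≠ s ∧ w ≠ t ∧ s ≠ t
  | k + 1, b, w, s, t => (D.Ve b w ∧ w ≠ s ∧ w ≠ t ∧ s ≠ t) ∧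
      ∃ b' g, Y.r {t} b g ∧ g ≠ b ∧ Y.r {w} b' g ∧ g ≠ b' ∧ ST D k b' t w s

lemma ST.head {D : BFS Y} {k : ℕ} {b : B} {w s t : S} (h : ST D k b w s t) :
    D.Ve b w ∧ w ≠ s ∧ w ≠ t ∧ s ≠ t := by
  cases k with
  | zero => exact h
  | succ k => exact h.1

lemma ST_down {D : BFS Y} : ∀ (k : ℕ) (b : B) (w s t : S), ST D (k + 1) b w s t →
    ∃ b' w' l, ST D k b' w' t w ∧ D.lev b' + 1 = D.lev b ∧ Y.r {w} b l ∧ Gate D l w ∧
      Y.r {t} b' l ∧ l ≠ b' := by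
  intro k
  induction k with
  | zero =>
    rintro b w s t ⟨⟨hb, hws, hwt, hst⟩, b₁, g, h1, h2, h3, h4, h5⟩
    have h6 := ST.head h5
    obtain ⟨b', w', l, l₁, i1, i2, i3, i4, i5, i6, i7, i8, i9, i10, i11, i12⟩ :=
      proj hb h6.1 hwt h1 h2 h3 h4
    exact ⟨b', w', l, ⟨i1, i2, i3, hwt.symm⟩, i12, i4, i5, i8, i9⟩
  | succ k ih =>
    rintro b w s t ⟨⟨hb, hws, hwt, hst⟩, b₁, g, h1, h2, h3, h4, h5⟩
    have h6 := ST.head h5
    obtain ⟨b', w', l, l₁, i1, i2, i3, i4, i5, i6, i7, i8, i9, i10, i11, i12⟩ :=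
      proj hb h6.1 hwt h1 h2 h3 h4
    obtain ⟨b₂, w₂, l₂, j1, j2, j3, j4, j5, j6⟩ := ih _ _ _ _ h5
    have hl : l₁ = l₂ := gate_uniq i7 j4 (r1t (r1s i6) j3)
    subst hl
    have j7 := ST.head j1
    -- the edge state of `l₁`
    have k1 : D.Ed l₁ s w₂ := (D.flat_ve b₂ l₁ s w₂ j7.1 (Ne.symm j7.2.1) j5 j6).2
    have k2 : D.Ed l₁ w w' := (D.flat_ve b' l₁ w w' i1 (Ne.symm i3) i10 i11).2
    rcases D.ed_uniq _ _ _ _ _ k1 k2 with ⟨k3, -⟩ | ⟨k3, k4⟩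
    · exact absurd k3.symm hws
    · subst k3
      subst k4
      exact ⟨b', s, l, ⟨⟨i1, i2, i3, hwt.symm⟩, b₂, l₁, i10, i11, j5, j6, j1⟩, i12, i4, i5, i8, i9⟩

lemma ST_lt {D : BFS Y} : ∀ (k : ℕ) (b : B) (w s t : S), ST D k b w s t → k < D.lev b := by
  intro k
  induction k with
  | zero =>
    intro b w s t h
    by_contra h'
    have h1 : D.lev b = 0 := by omega
    have h2 := (D.lev0 b).1 h1
    rw [h2] at h
    exact D.ve_b0 _ h.1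
  | succ k ih =>
    intro b w s t h
    obtain ⟨b', w', l, h1, h2, -⟩ := ST_down k b w s t h
    have h3 := ih _ _ _ _ h1
    omega

end Pool.Agent.helper20.LT9
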