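import Pool.Agent.helper20.LT9.B

set_option autoImplicit false

/-!
# Module M9, part C: bounded non-backtracking walks, levels, the bound for walks
-/

namespace Pool.Agent.helper20.LT9

open Pool.Agent.helper34 Pool.Agent.helper36.LT

/-! ## eccentricities -/

section graph

variable {V : Type} (H : V → V → Prop)

/-- there is a non-backtracking walk of length `k` from `v`, not starting with the step to `u` -/
def W : ℕ → V → V → Prop
  | 0, _, _ => True
  | k + 1, u, v => ∃ w, H v w ∧ w ≠ u ∧ W k v w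

/-- there is a non-backtracking walk of length `k` from `v` -/
def E : ℕ → V → Prop
  | 0, _ => True
  | k + 1, v => ∃ w, H v w ∧ W H k v w

lemma W_mono {H : V → V → Prop} : ∀ {k : ℕ} {u v : V}, W H (k + 1) u v → W H k u v := by
  intro k
  induction k with
  | zero => intro u v _; trivial
  | succ k ih =>
    rintro u v ⟨w, h1, h2, h3⟩
    exact ⟨w, h1, h2, ih h3⟩

lemma W_le {H : V → V → Prop} {k m : ℕ} (hkm : k ≤ m) {u v : V} (h : W H m u v) : W H k u v := by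
  induction hkm with
  | refl => exact h
  | step _ ih => exact ih (W_mono h)

/-- the eccentricity -/
noncomputable def ecc (v : V) : ℕ := sSup {k | E H k v}

lemma ecc_uniq {H : V → V → Prop} (hs : ∀ u v, H u v → H v u)
    (hb : ∀ v, ∃ n, ∀ k, E H k v → k ≤ n) {u u' v : V} (h : H v u) (h' : H v u')
    (l : ecc H u ≤ ecc H v) (l' : ecc H u' ≤ ecc H v) : u = u' := by
  by_contra hne
  have bdd : ∀ v, BddAbove {k | E H k v} := by
    intro v
    obtain ⟨n, hn⟩ := hb v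
    exact ⟨n, fun k hk => hn k hk⟩
  have mem : E H (ecc H v) v := Nat.sSup_mem (s := {k | E H k v}) ⟨0, trivial⟩ (bdd v)
  have le : ∀ k v, E H k v → k ≤ ecc H v := fun k v hk => le_csSup (bdd v) hk
  have e1 : 1 ≤ ecc H v := le 1 v ⟨u, h, trivial⟩
  obtain ⟨k, hk⟩ : ∃ k, ecc H v = k + 1 := ⟨ecc H v - 1, by omega⟩
  rw [hk] at mem
  obtain ⟨w, hw1, hw2⟩ := mem
  have key : ∀ x, H v x → ecc H x ≤ ecc H v → w = x := by
    intro x hx hl
    by_contra hwx
    have : E H (k + 2) x := ⟨v, hs _ _ hx, w, hw1, hwx, hw2⟩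
    have := le _ _ this
    omega
  exact hne ((key u h l).symm.trans (key u' h' l'))

end graph

variable {S B : Type} {Y : Sys S B}

/-! ## levels -/

/-- the level of a class -/
noncomputable def Lv (D : BFS Y) (v : Vert Y) : ℕ := sInf {n | ∃ b, v = cl Y v.1 b ∧ D.lev b = n}

lemma Lv_le (D : BFS Y) (T : Ty S) (b : B) : Lv D (cl Y T b) ≤ D.lev b :=
  Nat.sInf_le ⟨b, rfl, rfl⟩

lemma Lv_mem (D : BFS Y) (T : Ty S) (b : B) :
    ∃ c, Y.r T.1 b c ∧ Lv D (cl Y T b) = D.lev c := by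
  have h : Lv D (cl Y T b) ∈ {n | ∃ c, cl Y T b = cl Y (cl Y T b).1 c ∧ D.lev c = n} :=
    Nat.sInf_mem ⟨D.lev b, b, rfl, rfl⟩
  obtain ⟨c, h1, h2⟩ := h
  exact ⟨c, (cl_eq.1 h1).2, h2.symm⟩

lemma Lv_eq (D : BFS Y) (T : Ty S) (b : B) (h : ∀ c, Y.r T.1 b c → D.lev b ≤ D.lev c) :
    Lv D (cl Y T b) = D.lev b := by
  obtain ⟨c, h1, h2⟩ := Lv_mem D T b
  have h3 := Lv_le D T b
  have h4 := h c h1
  omega

lemma Lv0 (D : BFS Y) (b : B) : Lv D (cl Y t0 b) = D.lev b :=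
  Lv_eq D _ b (fun c h => by rw [Y.zero _ _ h])

/-- the panel of type `s` of `b` is flat -/
def Flat (D : BFS Y) (b : B) (s w : S) : Prop := D.Ed b s w ∨ (D.Ve b w ∧ s ≠ w)

lemma Flat.ne {D : BFS Y} {b : B} {s w : S} (h : Flat D b s w) : s ≠ w := by
  rcases h with h | h
  · exact D.ed_ne _ _ _ h
  · exact h.2

lemma Flat.move {D : BFS Y} {b b' : B} {s w : S} (h : Flat D b s w) (hr : Y.r {s} b b') :
    D.lev b' = D.lev b ∧ Flat D b' s w := by
  by_cases hbb : b' = b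
  · subst hbb; exact ⟨rfl, h⟩
  have hn := h.ne
  rcases h with h | h
  · obtain ⟨h1, h2⟩ := D.flat_ed _ _ _ _ h hr
    exact ⟨h1, h2.imp id (fun h => ⟨h, hn⟩)⟩
  · obtain ⟨h1, h2⟩ := D.flat_ve _ _ s w h.1 h.2 hr hbb
    exact ⟨h1, Or.inl h2⟩

lemma Flat.Lv {D : BFS Y} {b : B} {s w : S} (h : Flat D b s w) :
    Lv D (cl Y (t1 s) b) = D.lev b :=
  Lv_eq D _ b (fun _ hc => le_of_eq (h.move hc).1.symm)

lemma Flat.not_gate {D : BFS Y} {b : B} {s w : S} (h : Flat D b s w) : ¬ Gate D b s := by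
  intro hg
  rcases h with h | h
  · exact hg.not_ed _ h
  · exact hg.not_ve _ h.1

lemma Flat.not_ve {D : BFS Y} {b : B} {s w : S} (h : Flat D b s w) : ¬ D.Ve b s := by
  intro hv
  rcases h with h | h
  · exact D.ed_ve _ _ _ _ h hv
  · exact h.2 (D.ve_uniq _ _ _ hv h.1)

lemma Gate.Lv {D : BFS Y} {g : B} {s : S} (h : Gate D g s) :
    Lv D (cl Y (t1 s) g) = D.lev g := by
  refine Lv_eq D _ g (fun c hc => ?_)
  by_cases hcg : c = g
  · rw [hcg]
  · have := (D.gate_ve g c s h hc hcg).1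
    omega

lemma panel_cases (D : BFS Y) (b : B) (s : S) : Gate D b s ∨ D.Ve b s ∨ ∃ w, Flat D b s w := by
  by_cases hb : b = D.b0
  · exact Or.inl (Or.inl hb)
  rcases D.state b hb with ⟨u, v, h⟩ | ⟨w, h⟩
  · by_cases hu : s = u
    · subst hu
      exact Or.inr (Or.inr ⟨v, Or.inl h⟩)
    · by_cases hv : s = v
      · subst hv
        exact Or.inr (Or.inr ⟨u, Or.inl (D.ed_symm _ _ _ h)⟩)
      · exact Or.inl (Or.inr ⟨u, v, h, hu, hv⟩)
  · by_cases hw : s = w
    · subst hw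
      exact Or.inr (Or.inl h)
    · exact Or.inr (Or.inr ⟨w, Or.inr ⟨h, hw⟩⟩)

/-- the chamber `b` is in the low part of its class of type `{s, t}` -/
def Low (D : BFS Y) (b : B) (s t : S) : Prop := ¬ D.Ed b s t ∧ ¬ D.Ve b s ∧ ¬ D.Ve b t

lemma Low.symm {D : BFS Y} {b : B} {s t : S} (h : Low D b s t) : Low D b t s :=
  ⟨fun h' => h.1 (D.ed_symm _ _ _ h'), h.2.2, h.2.1⟩

lemma Low.Lv {D : BFS Y} {b : B} {s t : S} (hst : s ≠ t) (h : Low D b s t) :
    Lv D (cl Y (t2 s t hst) b) = D.lev b :=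
  Lv_eq D _ b (fun c hc => (D.low b c s t hst h.1 h.2.1 h.2.2 hc).1)

lemma not_low {D : BFS Y} {b : B} {s t : S} (hst : s ≠ t) (h : ¬ Low D b s t) :
    Lv D (cl Y (t2 s t hst) b) < D.lev b := by
  have key : ∃ g, Y.r {s, t} b g ∧ D.lev b = D.lev g + 1 := by
    by_cases h1 : D.Ed b s t
    · exact D.ed_low b s t h1
    · by_cases h2 : D.Ve b s
      · obtain ⟨g, hg1, hg2, -⟩ := D.ve_gate b s h2
        exact ⟨g, sub12 hst hg1, hg2⟩
      · by_cases h3 : D.Ve b t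
        · obtain ⟨g, hg1, hg2, -⟩ := D.ve_gate b t h3
          exact ⟨g, sub12' hst hg1, hg2⟩
        · exact absurd ⟨h1, h2, h3⟩ h
  obtain ⟨g, hg1, hg2⟩ := key
  have h4 : cl Y (t2 s t hst) b = cl Y (t2 s t hst) g := cl_congr hg1
  have h5 := Lv_le D (t2 s t hst) g
  rw [h4]
  omega

lemma exists_low (D : BFS Y) (b : B) (s t : S) (hst : s ≠ t) :
    ∃ c, Y.r {s, t} b c ∧ Low D c s t := by
  obtain ⟨c, hc1, hc2⟩ := Lv_mem D (t2 s t hst) b
  refine ⟨c, hc1, ?_⟩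
  by_contra h
  have h1 := not_low hst h
  have h4 : cl Y (t2 s t hst) b = cl Y (t2 s t hst) c := cl_congr hc1
  rw [h4] at hc2
  omega

/-- same level in a class with low chamber `b` means low -/
lemma low_of_lev {D : BFS Y} {b c : B} {s t : S} (hst : s ≠ t) (h : Low D b s t)
    (hr : Y.r {s, t} b c) (hl : D.lev c = D.lev b) : Low D c s t := by
  by_contra h'
  have h1 := not_low hst h'
  have h2 := h.Lv hst
  have h4 : cl Y (t2 s t hst) b = cl Y (t2 s t hst) c := cl_congr hr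
  rw [h4] at h2
  omega

lemma lev_of_low {D : BFS Y} {b c : B} {s t : S} (hst : s ≠ t) (h : Low D b s t)
    (hr : Y.r {s, t} b c) (hl : Low D c s t) : D.lev c = D.lev b := by
  have h1 := hl.Lv hst
  have h2 := h.Lv hst
  have h4 : cl Y (t2 s t hst) b = cl Y (t2 s t hst) c := cl_congr hr
  rw [h4] at h2
  omega

lemma low_of_ve {D : BFS Y} {b : B} {s t w : S} (hb : D.Ve b w) (hs : w ≠ s) (ht : w ≠ t) :
    Low D b s t :=
  ⟨fun h => D.ed_ve _ _ _ _ h hb, fun h => hs (D.ve_uniq _ _ _ hb h),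
    fun h => ht (D.ve_uniq _ _ _ hb h)⟩

lemma Gate.low {D : BFS Y} {b : B} {s t : S} (h : Gate D b s) : Low D b s t :=
  ⟨h.not_ed t, h.not_ve s, h.not_ve t⟩

/-! ## iso panels and `c2`-classes -/

variable (Mk : Set S → B → Prop)

/-- iso panels: marked gate panels whose gate is not marked -/
def IsIso (D : BFS Y) (v : Vert Y) : Prop :=
  ∃ g s, v = cl Y (t1 s) g ∧ Gate D g s ∧ Mk {s} g ∧ ¬ Mk ∅ g

/-- `c2`-classes -/
def IsC2 (D : BFS Y) (v : Vert Y) : Prop :=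
  ∃ b s t, ∃ h : s ≠ t, ∃ w, v = cl Y (t2 s t h) b ∧ D.Ve b w ∧ w ≠ s ∧ w ≠ t

/-- `V` is an iso panel on the side `s` of the `c2`-class of type `{s, t}` with centre `b` -/
def Side (D : BFS Y) (b : B) (s t : S) (V : Vert Y) : Prop :=
  ∃ g, Y.r {s} b g ∧ g ≠ b ∧ V = cl Y (t1 t) g ∧ Gate D g t ∧ Mk {t} g ∧ ¬ Mk ∅ g

/-- the graph -/
def H (D : BFS Y) (v w : Vert Y) : Prop :=
  Lv D v = Lv D w ∧ (cx Y).edge v w ∧
    ((IsIso Mk D v ∧ IsC2 D w) ∨ (IsC2 D v ∧ IsIso Mk D w))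

lemma H_symm (D : BFS Y) (u v : Vert Y) (h : H Mk D u v) : H Mk D v u :=
  ⟨h.1.symm, (cx Y).edge_symm _ _ h.2.1, h.2.2.symm.imp (fun h => ⟨h.2, h.1⟩)
    (fun h => ⟨h.2, h.1⟩)⟩

variable {Mk}

lemma IsIso.not_C2 {D : BFS Y} {v : Vert Y} (h : IsIso Mk D v) : ¬ IsC2 D v := by
  obtain ⟨g, s, rfl, -⟩ := h
  rintro ⟨b, u, v, h, w, h1, -⟩
  exact t1_ne_t2 _ _ _ _ (cl_eq.1 h1).1

lemma side_of {D : BFS Y} {b : B} {s t w : S} (hst : s ≠ t) (hb : D.Ve b w) (hs : w ≠ s)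
    (ht : w ≠ t) {V : Vert Y} (hV : IsIso Mk D V) (he : (cx Y).edge (cl Y (t2 s t hst) b) V)
    (hl : Lv D V = Lv D (cl Y (t2 s t hst) b)) : Side Mk D b s t V ∨ Side Mk D b t s V := by
  obtain ⟨g, a, rfl, hg, hm, hn⟩ := hV
  obtain ⟨c, hc1, hc2⟩ := edge2 he
  rw [(low_of_ve hb hs ht).Lv hst, hg.Lv] at hl
  have hgb : g ≠ b := by
    rintro rfl
    exact hg.not_ve _ hb
  rcases hc2 with hc2 | hc2 | hc2
  · exact absurd (cl_eq.1 hc2).1.symm (t0_ne_t1 _)
  · obtain ⟨h1, h2⟩ := cl_eq.1 hc2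
    have := t1_inj h1
    subst this
    have h3 : Y.r {a, t} b g := r2t hst hc1 (sub12 hst (r1s h2))
    rcases D.low2 b g a t w hst hb hs ht h3 hl with h4 | h4
    · exact absurd (D.flat_ve b g a w hb hs.symm h4 hgb).2 (hg.not_ed _)
    · exact Or.inr ⟨g, h4, hgb, rfl, hg, hm, hn⟩
  · obtain ⟨h1, h2⟩ := cl_eq.1 hc2
    have := t1_inj h1
    subst this
    have h3 : Y.r {s, a} b g := r2t hst hc1 (sub12' hst (r1s h2))
    rcases D.low2 b g s a w hst hb hs ht h3 hl with h4 | h4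
    · exact Or.inl ⟨g, h4, hgb, rfl, hg, hm, hn⟩
    · exact absurd (D.flat_ve b g a w hb ht.symm h4 hgb).2 (hg.not_ed _)

lemma side_uniq {D : BFS Y} (hMk : Marks Y Mk) {b : B} {s t : S} (hst : s ≠ t) {V V' : Vert Y}
    (h : Side Mk D b s t V) (h' : Side Mk D b s t V') : V = V' := by
  obtain ⟨g, h1, h2, rfl, h4, h5, h6⟩ := h
  obtain ⟨g', h1', h2', rfl, h4', h5', h6'⟩ := h'
  by_contra hne
  have hgg : g ≠ g' := by rintro rfl; exact hne rfl
  exact h6 (hMk.four s t g g' hst hgg (r1t (r1s h1) h1') h5 h5')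

lemma walk_ST {D : BFS Y} (hMk : Marks Y Mk) : ∀ (k : ℕ) (b : B) (s t w : S) (hst : s ≠ t)
    (V : Vert Y), D.Ve b w → w ≠ s → w ≠ t → Side Mk D b s t V →
    W (H Mk D) (2 * k) V (cl Y (t2 s t hst) b) → ST D k b w s t := by
  intro k
  induction k with
  | zero =>
    intro b s t w hst V hb hs ht _ _
    exact ⟨hb, hs, ht, hst⟩
  | succ k ih =>
    intro b s t w hst V hb hs ht hside hW
    have hk : 2 * (k + 1) = 2 * k + 1 + 1 := by ring
    rw [hk] at hW
    obtain ⟨V', hH, hne, C', hH', hne', hW'⟩ := hW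
    have hC2 : IsC2 D (cl Y (t2 s t hst) b) := ⟨b, s, t, hst, w, rfl, hb, hs, ht⟩
    have hV' : IsIso Mk D V' := by
      rcases hH.2.2 with h | h
      · exact absurd hC2 h.1.not_C2
      · exact h.2
    rcases side_of hst hb hs ht hV' hH.2.1 hH.1.symm with h1 | h1
    · exact absurd (side_uniq hMk hst h1 hside) hne
    have hC' : IsC2 D C' := by
      rcases hH'.2.2 with h | h
      · exact h.2
      · exact absurd h.1 hV'.not_C2
    obtain ⟨b', s', t', hst', w', rfl, hb', hs', ht'⟩ := hC'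
    obtain ⟨g, g1, g2, g3, g4, g5, g6⟩ := h1
    have key : ∀ (s' t' : S) (hst' : s' ≠ t'), w' ≠ s' → w' ≠ t' → Side Mk D b' s' t' V' →
        cl Y (t2 s' t' hst') b' ≠ cl Y (t2 s t hst) b →
        W (H Mk D) (2 * k) V' (cl Y (t2 s' t' hst') b') → ST D (k + 1) b w s t := by
      intro s' t' hst' hs' ht' h2 hne' hW'
      have h2' := h2
      obtain ⟨g', k1, k2, k3, k4, k5, k6⟩ := h2
      have e1 := cl_eq.1 (g3.symm.trans k3)
      have e2 := t1_inj e1.1
      subst e2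
      have e3 : g = g' := gate_uniq g4 k4 e1.2
      subst e3
      have f1 := (D.flat_ve b g t w hb ht.symm g1 g2).2
      have f2 := (D.flat_ve b' g s' w' hb' hs'.symm k1 k2).2
      rcases D.ed_uniq _ _ _ _ _ f1 f2 with ⟨e4, e5⟩ | ⟨e4, e5⟩
      · subst e4
        subst e5
        exfalso
        apply hne'
        have e6 : cl Y (t2 t s hst') b' = cl Y (t2 s t hst) b' := by
          rw [t2_comm]
        rw [e6]
        exact cl_congr (r2t hst (sub12' hst k1) (sub12' hst (r1s g1)))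
      · subst e4
        subst e5
        exact ⟨⟨hb, hs, ht, hst⟩, b', g, g1, g2, k1, k2, ih b' w s t hst' V' hb' hs' ht' h2' hW'⟩
    rcases side_of hst' hb' hs' ht' hV' ((cx Y).edge_symm _ _ hH'.2.1) hH'.1 with h2 | h2
    · exact key s' t' hst' hs' ht' h2 hne' hW'
    · have e6 : cl Y (t2 s' t' hst') b' = cl Y (t2 t' s' hst'.symm) b' := by
        rw [t2_comm]
      rw [e6] at hne' hW'
      exact key t' s' hst'.symm ht' hs' h2 hne' hW'

/-- the walks are bounded -/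
lemma E_bound {D : BFS Y} (hMk : Marks Y Mk) (v : Vert Y) :
    ∃ n, ∀ k, E (H Mk D) k v → k ≤ n := by
  have key : ∀ (V C : Vert Y) (m : ℕ), H Mk D V C → IsIso Mk D V → IsC2 D C →
      W (H Mk D) m V C → m ≤ 2 * Lv D C := by
    intro V C m hH hV hC hW
    by_contra hm
    push Not at hm
    have h1 := W_le (le_of_lt hm) hW
    obtain ⟨b, s, t, hst, w, rfl, hb, hs, ht⟩ := hC
    rw [(low_of_ve hb hs ht).Lv hst] at h1
    rcases side_of hst hb hs ht hV ((cx Y).edge_symm _ _ hH.2.1) hH.1 with h2 | h2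
    · exact lt_irrefl _ (ST_lt _ _ _ _ _ (walk_ST hMk _ b s t w hst V hb hs ht h2 h1))
    · have e6 : cl Y (t2 s t hst) b = cl Y (t2 t s hst.symm) b := by
        rw [t2_comm]
      rw [e6] at h1
      exact lt_irrefl _ (ST_lt _ _ _ _ _ (walk_ST hMk _ b t s w hst.symm V hb ht hs h2 h1))
  refine ⟨2 * Lv D v + 2, fun k hk => ?_⟩
  cases k with
  | zero => omega
  | succ k =>
    obtain ⟨w, h1, h2⟩ := hk
    rcases h1.2.2 with h3 | h3
    · have h4 := key v w k h1 h3.1 h3.2 h2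
      have h5 := h1.1
      omega
    · cases k with
      | zero => omega
      | succ k =>
        obtain ⟨C', h5, h6, h7⟩ := h2
        have hC' : IsC2 D C' := by
          rcases h5.2.2 with h | h
          · exact h.2
          · exact absurd h.1 h3.2.not_C2
        have h8 := key w C' k h5 h3.2 hC' h7
        have h9 := h1.1
        have h10 := h5.1
        omega

end Pool.Agent.helper20.LT9
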