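import Pool.Agent.helper20.LT9.C

set_option autoImplicit false

/-!
# Module M9, part D: the order, and the links of chambers and panels
-/

namespace Pool.Agent.helper20.LT9

open Pool.Agent.helper34 Pool.Agent.helper36.LT

variable {S B : Type} {Y : Sys S B}

/-- flat panels -/
def IsFl (D : BFS Y) (v : Vert Y) : Prop := ∃ b s w, v = cl Y (t1 s) b ∧ Flat D b s w

/-- rank two classes -/
def IsR2 (v : Vert Y) : Prop := ∃ s t, ∃ h : s ≠ t, v.1 = t2 s t h

open Classical in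
/-- the stage -/
noncomputable def stg (Mk : Set S → B → Prop) (D : BFS Y) (v : Vert Y) : ℕ :=
  if IsFl D v then 0 else if v.1 = t0 then 1 else if IsIso Mk D v ∨ IsC2 D v then 2
    else if IsR2 v then 3 else 4

open Classical in
/-- the last component of the rank -/
noncomputable def ev (Mk : Set S → B → Prop) (D : BFS Y) (v : Vert Y) : ℕ :=
  if IsIso Mk D v then 2 * ecc (H Mk D) v
    else if IsC2 D v then 2 * ecc (H Mk D) v + 1 else 0

/-- the order -/
def Lt (Mk : Set S → B → Prop) (D : BFS Y) (x y : Vert Y) : Prop :=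
  Lv D x < Lv D y ∨ (Lv D x = Lv D y ∧ (stg Mk D x < stg Mk D y ∨
    (stg Mk D x = stg Mk D y ∧ ev Mk D x < ev Mk D y)))

variable {Mk : Set S → B → Prop}

lemma Lt_wf (D : BFS Y) : WellFounded (Lt Mk D) := by
  have h1 : WellFounded (Prod.Lex (· < · : ℕ → ℕ → Prop)
      (Prod.Lex (· < · : ℕ → ℕ → Prop) (· < · : ℕ → ℕ → Prop))) :=
    WellFounded.prod_lex wellFounded_lt (WellFounded.prod_lex wellFounded_lt wellFounded_lt)
  have h2 := InvImage.wf (fun v : Vert Y => (Lv D v, (stg Mk D v, ev Mk D v))) h1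
  refine Subrelation.wf ?_ h2
  intro x y h
  simp only [InvImage, Prod.lex_def]
  exact h

lemma stg0 (D : BFS Y) (b : B) : stg Mk D (cl Y t0 b) = 1 := by
  unfold stg
  rw [if_neg, if_pos]
  · rfl
  · rintro ⟨c, s, w, h, -⟩
    exact t0_ne_t1 _ (cl_eq.1 h).1

lemma stg_fl {D : BFS Y} {v : Vert Y} (h : IsFl D v) : stg Mk D v = 0 := by
  unfold stg
  rw [if_pos h]

lemma stg_iso {D : BFS Y} {v : Vert Y} (h : IsIso Mk D v) : stg Mk D v = 2 := by
  unfold stg
  rw [if_neg, if_neg, if_pos (Or.inl h)]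
  · obtain ⟨g, s, rfl, h⟩ := h
    exact fun h => t0_ne_t1 _ h.symm
  · obtain ⟨g, s, rfl, hg, -⟩ := h
    rintro ⟨b, u, w, h1, h2⟩
    obtain ⟨h3, h4⟩ := cl_eq.1 h1
    have := t1_inj h3
    subst this
    exact (h2.move (r1s h4)).2.not_gate hg

lemma stg_r2 (D : BFS Y) (b : B) (s t : S) (h : s ≠ t) :
    stg Mk D (cl Y (t2 s t h) b) = 2 ∧ IsC2 D (cl Y (t2 s t h) b) ∨
      stg Mk D (cl Y (t2 s t h) b) = 3 := by
  have h1 : ¬ IsFl D (cl Y (t2 s t h) b) := by
    rintro ⟨c, u, w, h1, -⟩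
    exact t1_ne_t2 _ _ _ _ (cl_eq.1 h1).1.symm
  have h2 : ¬ (cl Y (t2 s t h) b).1 = t0 := fun h' => t0_ne_t2 s t h h'.symm
  have h3 : ¬ IsIso Mk D (cl Y (t2 s t h) b) := by
    rintro ⟨g, u, h3, -⟩
    exact t1_ne_t2 _ _ _ _ (cl_eq.1 h3).1.symm
  have h4 : IsR2 (cl Y (t2 s t h) b) := ⟨s, t, h, rfl⟩
  unfold stg
  rw [if_neg h1, if_neg h2]
  by_cases h5 : IsC2 D (cl Y (t2 s t h) b)
  · left
    rw [if_pos (Or.inr h5)]
    exact ⟨rfl, h5⟩
  · right
    rw [if_neg (by rintro (h | h); exact h3 h; exact h5 h), if_pos h4]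

lemma gate_iso {D : BFS Y} {g : B} {s : S} (hg : Gate D g s) :
    IsIso Mk D (cl Y (t1 s) g) ↔ Mk {s} g ∧ ¬ Mk ∅ g := by
  constructor
  · rintro ⟨g', s', h1, h2, h3, h4⟩
    obtain ⟨h5, h6⟩ := cl_eq.1 h1
    have := t1_inj h5
    subst this
    have := gate_uniq hg h2 h6
    subst this
    exact ⟨h3, h4⟩
  · rintro ⟨h1, h2⟩
    exact ⟨g, s, rfl, hg, h1, h2⟩

lemma stg_ga {D : BFS Y} {g : B} {s : S} (hg : Gate D g s)
    (h : ¬ IsIso Mk D (cl Y (t1 s) g)) : stg Mk D (cl Y (t1 s) g) = 4 := by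
  unfold stg
  rw [if_neg, if_neg, if_neg, if_neg]
  · rintro ⟨u, v, h1, h2⟩
    exact t1_ne_t2 _ _ _ _ h2
  · rintro (h1 | ⟨b, u, v, h1, w, h2, -⟩)
    · exact h h1
    · exact t1_ne_t2 _ _ _ _ (cl_eq.1 h2).1
  · exact fun h => t0_ne_t1 _ h.symm
  · rintro ⟨b, u, w, h1, h2⟩
    obtain ⟨h3, h4⟩ := cl_eq.1 h1
    have := t1_inj h3
    subst this
    exact (h2.move (r1s h4)).2.not_gate hg

lemma exists_gate_or_flat (D : BFS Y) (b : B) (s : S) :
    (∃ g, Y.r {s} b g ∧ Gate D g s) ∨ ∃ w, Flat D b s w := by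
  rcases panel_cases D b s with h | h | h
  · exact Or.inl ⟨b, Y.refl _ _ (ty1 s), h⟩
  · obtain ⟨g, h1, -, h2⟩ := D.ve_gate b s h
    exact Or.inl ⟨g, h1, h2⟩
  · exact Or.inr h

lemma stg1 (D : BFS Y) (b : B) (s : S) :
    stg Mk D (cl Y (t1 s) b) = 0 ∨ (stg Mk D (cl Y (t1 s) b) = 2 ∧
      IsIso Mk D (cl Y (t1 s) b)) ∨ stg Mk D (cl Y (t1 s) b) = 4 := by
  rcases exists_gate_or_flat D b s with ⟨g, h1, h2⟩ | ⟨w, h⟩
  · have h3 : cl Y (t1 s) b = cl Y (t1 s) g := cl_congr h1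
    rw [h3]
    by_cases h4 : IsIso Mk D (cl Y (t1 s) g)
    · exact Or.inr (Or.inl ⟨stg_iso h4, h4⟩)
    · exact Or.inr (Or.inr (stg_ga h2 h4))
  · exact Or.inl (stg_fl ⟨b, s, w, rfl, h⟩)

lemma ev_iso {D : BFS Y} {v : Vert Y} (h : IsIso Mk D v) :
    ev Mk D v = 2 * ecc (H Mk D) v := by
  unfold ev
  rw [if_pos h]

lemma ev_C2 {D : BFS Y} {v : Vert Y} (h : IsC2 D v) :
    ev Mk D v = 2 * ecc (H Mk D) v + 1 := by
  unfold ev
  rw [if_neg (fun h' => h'.not_C2 h), if_pos h]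

lemma Lt_total (D : BFS Y) (x y : Vert Y) (h : (cx Y).edge x y) : Lt Mk D x y ∨ Lt Mk D y x := by
  by_contra hn
  have hn' : ¬ Lt Mk D x y ∧ ¬ Lt Mk D y x := not_or.1 hn
  unfold Lt at hn'
  have e1 : Lv D x = Lv D y := by omega
  have e2 : stg Mk D x = stg Mk D y := by omega
  have e3 : ev Mk D x = ev Mk D y := by omega
  have key : ∀ (b : B) (s t : S) (hst : s ≠ t) (a : S),
      stg Mk D (cl Y (t2 s t hst) b) = stg Mk D (cl Y (t1 a) b) →
      ev Mk D (cl Y (t2 s t hst) b) = ev Mk D (cl Y (t1 a) b) → False := by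
    intro b s t hst a h1 h2
    rcases stg_r2 (Mk := Mk) D b s t hst with ⟨h3, h4⟩ | h3 <;>
      rcases stg1 (Mk := Mk) D b a with h5 | ⟨h5, h6⟩ | h5
    · omega
    · rw [ev_C2 h4, ev_iso h6] at h2
      omega
    · omega
    · omega
    · omega
    · omega
  obtain ⟨b, T, T', hc, rfl, rfl⟩ := h
  rcases ty_cases T with rfl | ⟨s, rfl⟩ | ⟨s, t, hst, rfl⟩ <;>
    rcases ty_cases T' with rfl | ⟨u, rfl⟩ | ⟨u, v, huv, rfl⟩
  · exact (hc.elim (fun h => (ssubset_irrefl _ h)) (fun h => (ssubset_irrefl _ h)))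
  · rw [stg0] at e2
    rcases stg1 (Mk := Mk) D b u with h5 | ⟨h5, h6⟩ | h5 <;> omega
  · rw [stg0] at e2
    rcases stg_r2 (Mk := Mk) D b u v huv with ⟨h3, h4⟩ | h3 <;> omega
  · rw [stg0] at e2
    rcases stg1 (Mk := Mk) D b s with h5 | ⟨h5, h6⟩ | h5 <;> omega
  · have hsu : ({s} : Set S) ⊂ {u} ∨ ({u} : Set S) ⊂ {s} := hc
    rcases hsu with h | h
    · have h1 : s = u := h.1 (Set.mem_singleton s)
      subst h1
      exact ssubset_irrefl _ h
    · have h1 : u = s := h.1 (Set.mem_singleton u)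
      subst h1
      exact ssubset_irrefl _ h
  · exact key b u v huv s e2.symm e3.symm
  · rw [stg0] at e2
    rcases stg_r2 (Mk := Mk) D b s t hst with ⟨h3, h4⟩ | h3 <;> omega
  · exact key b s t hst u e2 e3
  · have hc' : (t2 s t hst : Ty S).1 ⊂ (t2 u v huv).1 ∨ (t2 u v huv).1 ⊂ (t2 s t hst : Ty S).1 := hc
    rcases hc' with h | h
    · rcases sub_cases _ _ h with ⟨h1, -⟩ | ⟨_, _, _, h1, -⟩
      · exact t0_ne_t2 _ _ _ h1.symm
      · exact t1_ne_t2 _ _ _ _ h1.symm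
    · rcases sub_cases _ _ h with ⟨h1, -⟩ | ⟨_, _, _, h1, -⟩
      · exact t0_ne_t2 _ _ _ h1.symm
      · exact t1_ne_t2 _ _ _ _ h1.symm

/-! ## certificates for links -/

/-- the depth function `dep` with root `p` shows that the descending link of `x` is a tree -/
structure LinkOK (Mk : Set S → B → Prop) (D : BFS Y) (x p : Vert Y) (dep : Vert Y → ℕ) :
    Prop where
  p_dn : ∀ y, (cx Y).edge x y → Lt Mk D y x → (cx Y).edge x p ∧ Lt Mk D p x
  dep_p : dep p = 0
  nxt : ∀ y, (cx Y).edge x y → Lt Mk D y x → y ≠ p → ∃ z, (cx Y).tri x y z ∧ Lt Mk D z x ∧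
    dep z < dep y ∧ (VMk Y Mk x → VMk Y Mk y → VMk Y Mk z)
  uniq : ∀ y z z', (cx Y).tri x y z → (cx Y).tri x y z' → Lt Mk D y x → Lt Mk D z x →
    Lt Mk D z' x → dep z < dep y → dep z' < dep y → z = z'
  ne : ∀ y z, (cx Y).tri x y z → Lt Mk D y x → Lt Mk D z x → dep y ≠ dep z

lemma tri_ne {x y z : Vert Y} (h : (cx Y).tri x y z) : y ≠ z := by
  rintro rfl
  exact (cx Y).edge_irrefl _ ((cx Y).tri_edge _ _ _ ((cx Y).tri_rot _ _ _ h))

open Classical in
/-- the star certificate -/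
lemma star {D : BFS Y} {x p : Vert Y}
    (h1 : ∀ y, (cx Y).edge x y → Lt Mk D y x → (cx Y).edge x p ∧ Lt Mk D p x)
    (h2 : ∀ y, (cx Y).edge x y → Lt Mk D y x → y ≠ p → (cx Y).tri x y p ∧
      (VMk Y Mk x → VMk Y Mk y → VMk Y Mk p))
    (h3 : ∀ y z, (cx Y).tri x y z → Lt Mk D y x → Lt Mk D z x → y = p ∨ z = p) :
    LinkOK Mk D x p (fun y => if y = p then 0 else 1) := by
  refine ⟨h1, by simp, ?_, ?_, ?_⟩
  · intro y he hl hne
    obtain ⟨h4, h5⟩ := h2 y he hl hne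
    refine ⟨p, h4, (h1 y he hl).2, ?_, h5⟩
    simp [hne]
  · intro y z z' _ _ _ _ _ h6 h7
    have e : ∀ u, (if u = p then 0 else 1) < (if y = p then 0 else 1) → u = p := by
      intro u hu
      by_contra hup
      rw [if_neg hup] at hu
      split_ifs at hu <;> omega
    exact (e z h6).trans (e z' h7).symm
  · intro y z ht hy hz
    have hyz := tri_ne ht
    rcases h3 y z ht hy hz with h | h
    · subst h
      simp [Ne.symm hyz]
    · subst h
      simp [hyz]

lemma lt_irr {D : BFS Y} {x y : Vert Y} (h1 : Lv D x = Lv D y)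
    (h2 : stg Mk D x < stg Mk D y) : ¬ Lt Mk D y x := by
  unfold Lt
  omega

/-! ## chambers -/

lemma dn0_panel {D : BFS Y} {b : B} {s : S} (h : Lt Mk D (cl Y (t1 s) b) (cl Y t0 b)) :
    ¬ Gate D b s := by
  intro hg
  have h1 : Lv D (cl Y t0 b) = Lv D (cl Y (t1 s) b) := by rw [Lv0, hg.Lv]
  refine lt_irr h1 ?_ h
  rw [stg0]
  by_cases h4 : IsIso Mk D (cl Y (t1 s) b)
  · rw [stg_iso h4]; omega
  · rw [stg_ga hg h4]; omega

lemma dn0_r2 {D : BFS Y} {b : B} {s t : S} {hst : s ≠ t}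
    (h : Lt Mk D (cl Y (t2 s t hst) b) (cl Y t0 b)) : ¬ Low D b s t := by
  intro hg
  have h1 : Lv D (cl Y t0 b) = Lv D (cl Y (t2 s t hst) b) := by rw [Lv0, hg.Lv]
  refine lt_irr h1 ?_ h
  rw [stg0]
  rcases stg_r2 (Mk := Mk) D b s t hst with ⟨h3, h4⟩ | h3 <;> omega

lemma lt0_r2 {D : BFS Y} {b : B} {s t : S} {hst : s ≠ t} (h : ¬ Low D b s t) :
    Lt Mk D (cl Y (t2 s t hst) b) (cl Y t0 b) := by
  left
  rw [Lv0]
  exact not_low hst h

lemma lt0_ve {D : BFS Y} {b : B} {s : S} (h : D.Ve b s) :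
    Lt Mk D (cl Y (t1 s) b) (cl Y t0 b) := by
  left
  rw [Lv0]
  obtain ⟨g, h1, h2, -⟩ := D.ve_gate b s h
  have h3 : cl Y (t1 s) b = cl Y (t1 s) g := cl_congr h1
  have h4 := Lv_le D (t1 s) g
  rw [h3]
  omega

lemma mk_up (hMk : Marks Y Mk) {b : B} (h : VMk Y Mk (cl Y t0 b)) (T : Ty S) :
    VMk Y Mk (cl Y T b) := by
  rw [VMk_cl hMk] at h ⊢
  exact hMk.up _ _ _ ty0 T.2 (Set.empty_subset _) h

open Classical in
lemma link0 {D : BFS Y} (hMk : Marks Y Mk) (b : B) :
    ∃ p dep, LinkOK Mk D (cl Y t0 b) p dep := by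
  by_cases hb : b = D.b0
  · -- empty link
    refine ⟨cl Y t0 b, _, star ?_ ?_ ?_⟩
    · intro y he hl
      exfalso
      rcases edge0 he with ⟨s, rfl⟩ | ⟨s, t, hst, rfl⟩
      · exact dn0_panel hl (Or.inl hb)
      · have : Gate D b s := Or.inl hb
        exact dn0_r2 hl this.low
    · intro y he hl
      exfalso
      rcases edge0 he with ⟨s, rfl⟩ | ⟨s, t, hst, rfl⟩
      · exact dn0_panel hl (Or.inl hb)
      · have : Gate D b s := Or.inl hb
        exact dn0_r2 hl this.low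
    · intro y z ht hl _
      exfalso
      have he := (cx Y).tri_edge _ _ _ ht
      rcases edge0 he with ⟨s, rfl⟩ | ⟨s, t, hst, rfl⟩
      · exact dn0_panel hl (Or.inl hb)
      · have : Gate D b s := Or.inl hb
        exact dn0_r2 hl this.low
  rcases D.state b hb with ⟨u, w, h⟩ | ⟨s0, h⟩
  · -- edge state
    have huw := D.ed_ne _ _ _ h
    have hp : ∀ s, Lt Mk D (cl Y (t1 s) b) (cl Y t0 b) → s = u ∨ s = w := by
      intro s hl
      by_contra hs
      rw [not_or] at hs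
      exact dn0_panel hl (Or.inr ⟨u, w, h, hs.1, hs.2⟩)
    have hr : ∀ s t (hst : s ≠ t), Lt Mk D (cl Y (t2 s t hst) b) (cl Y t0 b) →
        cl Y (t2 s t hst) b = cl Y (t2 u w huw) b := by
      intro s t hst hl
      have h1 := dn0_r2 hl
      have h2 : D.Ed b s t := by
        by_contra h2
        exact h1 ⟨h2, D.ed_ve _ _ _ _ h, D.ed_ve _ _ _ _ h⟩
      rcases D.ed_uniq _ _ _ _ _ h2 h with ⟨rfl, rfl⟩ | ⟨rfl, rfl⟩
      · rfl
      · rw [t2_comm]
    refine ⟨cl Y (t2 u w huw) b, _, star ?_ ?_ ?_⟩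
    · intro y he hl
      exact ⟨edge02 _ _ _ _ _, lt0_r2 (fun hl => hl.1 h)⟩
    · intro y he hl hne
      rcases edge0 he with ⟨s, rfl⟩ | ⟨s, t, hst, rfl⟩
      · refine ⟨?_, fun hx _ => mk_up hMk hx _⟩
        rcases hp s hl with rfl | rfl
        · exact tri012 _ _ _ _ _
        · rw [t2_comm]
          exact tri012 _ _ _ _ _
      · exact absurd (hr s t hst hl) hne
    · intro y z ht hy hz
      obtain ⟨s, t, hst, ⟨rfl, rfl⟩ | ⟨rfl, rfl⟩⟩ := tri0 ht
      · exact Or.inr (hr s t hst hz)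
      · exact Or.inl (hr s t hst hy)
  · -- vertex state
    have hp0 : ∀ s t (hst : s ≠ t), Lt Mk D (cl Y (t2 s t hst) b) (cl Y t0 b) →
        s = s0 ∨ t = s0 := by
      intro s t hst hl
      by_contra hs
      rw [not_or] at hs
      exact dn0_r2 hl (low_of_ve h (Ne.symm hs.1) (Ne.symm hs.2))
    set p := cl Y (t1 s0) b with hpd
    set dep : Vert Y → ℕ := fun y => if y = p then 0 else if IsR2 y then 1 else 2 with hdep
    have d1 : dep p = 0 := by simp [hdep]
    have d2 : ∀ s t (hst : s ≠ t), dep (cl Y (t2 s t hst) b) = 1 := by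
      intro s t hst
      simp only [hdep]
      rw [if_neg, if_pos ⟨s, t, hst, rfl⟩]
      intro h'
      exact t1_ne_t2 _ _ _ _ (cl_eq.1 h').1.symm
    have d3 : ∀ s, s ≠ s0 → dep (cl Y (t1 s) b) = 2 := by
      intro s hs
      simp only [hdep]
      rw [if_neg, if_neg]
      · rintro ⟨u, v, huv, h'⟩
        exact t1_ne_t2 _ _ _ _ h'
      · intro h'
        exact hs (t1_inj (cl_eq.1 h').1)
    refine ⟨p, dep, ?_, d1, ?_, ?_, ?_⟩
    · intro y he hl
      exact ⟨edge01 _ _ _, lt0_ve h⟩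
    · intro y he hl hne
      rcases edge0 he with ⟨s, rfl⟩ | ⟨s, t, hst, rfl⟩
      · have hs : s ≠ s0 := by
          rintro rfl
          exact hne rfl
        refine ⟨cl Y (t2 s s0 hs) b, tri012 _ _ _ _ _, lt0_r2 (fun hl => hl.2.2 h), ?_,
          fun hx _ => mk_up hMk hx _⟩
        rw [d2, d3 s hs]
        omega
      · refine ⟨p, ?_, lt0_ve h, ?_, fun hx _ => mk_up hMk hx _⟩
        · rcases hp0 s t hst hl with rfl | rfl
          · exact tri_a _ _ _ _
          · rw [t2_comm]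
            exact tri_a _ _ _ _
        · rw [d1, d2]
          omega
    · intro y z z' ht ht' hy hz hz' hd hd'
      obtain ⟨s, t, hst, ⟨rfl, rfl⟩ | ⟨rfl, rfl⟩⟩ := tri0 ht
      · obtain ⟨s', t', hst', ⟨h1, rfl⟩ | ⟨rfl, h1⟩⟩ := tri0 ht'
        · have e1 := t1_inj (cl_eq.1 h1).1
          subst e1
          by_cases hs : s = s0
          · subst hs
            rw [d1] at hd
            omega
          · rcases hp0 s t hst hz with h2 | h2
            · exact absurd h2 hs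
            · rcases hp0 s t' hst' hz' with h3 | h3
              · exact absurd h3 hs
              · subst h2
                subst h3
                rfl
        · exact absurd (cl_eq.1 h1).1 (t1_ne_t2 _ _ _ _)
      · have e : ∀ u, dep u < dep (cl Y (t2 s t hst) b) → u = p := by
          intro u hu
          rw [d2] at hu
          by_contra hup
          have : dep u = if IsR2 u then 1 else 2 := by
            simp only [hdep]
            rw [if_neg hup]
          rw [this] at hu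
          split_ifs at hu <;> omega
        exact (e _ hd).trans (e _ hd').symm
    · intro y z ht hy hz
      obtain ⟨s, t, hst, ⟨rfl, rfl⟩ | ⟨rfl, rfl⟩⟩ := tri0 ht
      · rw [d2]
        by_cases hs : s = s0
        · subst hs
          rw [d1]; omega
        · rw [d3 s hs]; omega
      · rw [d2]
        by_cases hs : s = s0
        · subst hs
          rw [d1]; omega
        · rw [d3 s hs]; omega

/-! ## panels -/

lemma link1_flat {D : BFS Y} {b : B} {s w : S} (hf : Flat D b s w) :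
    ∃ p dep, LinkOK Mk D (cl Y (t1 s) b) p dep := by
  have hs0 : stg Mk D (cl Y (t1 s) b) = 0 := stg_fl ⟨b, s, w, rfl, hf⟩
  have hn : ¬ Low D b s w := by
    intro hl
    rcases hf with h | h
    · exact hl.1 h
    · exact hl.2.2 h.1
  have hlt : Lt Mk D (cl Y (t2 s w hf.ne) b) (cl Y (t1 s) b) := by
    left
    rw [hf.Lv]
    exact not_low _ hn
  have key : ∀ y, (cx Y).edge (cl Y (t1 s) b) y → Lt Mk D y (cl Y (t1 s) b) →
      y = cl Y (t2 s w hf.ne) b := by
    intro y he hl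
    rcases edge1 he with ⟨c, hc, rfl⟩ | ⟨t, hst, rfl⟩
    · exfalso
      refine lt_irr ?_ ?_ hl
      · rw [hf.Lv, Lv0, (hf.move hc).1]
      · rw [hs0, stg0]
        omega
    · by_cases htw : t = w
      · subst htw; rfl
      · exfalso
        have hlow : Low D b s t := by
          rcases hf with h | h
          · refine ⟨?_, D.ed_ve _ _ _ _ h, D.ed_ve _ _ _ _ h⟩
            intro h'
            rcases D.ed_uniq _ _ _ _ _ h' h with h1 | h1
            · exact htw h1.2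
            · exact hst h1.2.symm
          · exact low_of_ve h.1 h.2.symm (Ne.symm htw)
        refine lt_irr ?_ ?_ hl
        · rw [hf.Lv, hlow.Lv]
        · rw [hs0]
          rcases stg_r2 (Mk := Mk) D b s t hst with ⟨h3, h4⟩ | h3 <;> omega
  refine ⟨cl Y (t2 s w hf.ne) b, _, star ?_ ?_ ?_⟩
  · intro y he hl
    exact ⟨edge12 _ _ _ _ _, hlt⟩
  · intro y he hl hne
    exact absurd (key y he hl) hne
  · intro y z ht hy hz
    exact Or.inl (key y ((cx Y).tri_edge _ _ _ ht) hy)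

lemma link1_gate {D : BFS Y} (hMk : Marks Y Mk) {g : B} {s : S} (hg : Gate D g s) :
    ∃ p dep, LinkOK Mk D (cl Y (t1 s) g) p dep := by
  have hch : ∀ c, Y.r {s} g c → Lt Mk D (cl Y t0 c) (cl Y (t1 s) g) → c = g := by
    intro c hc hl
    by_contra hcg
    have h1 := (D.gate_ve g c s hg hc hcg).1
    unfold Lt at hl
    rw [Lv0, hg.Lv] at hl
    omega
  by_cases hi : IsIso Mk D (cl Y (t1 s) g)
  · have hst := stg_iso hi
    have hlt : Lt Mk D (cl Y t0 g) (cl Y (t1 s) g) := by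
      right
      rw [Lv0, hg.Lv, stg0, hst]
      omega
    have hC : ∀ t (h : s ≠ t), Lt Mk D (cl Y (t2 s t h) g) (cl Y (t1 s) g) →
        H Mk D (cl Y (t1 s) g) (cl Y (t2 s t h) g) ∧
          ecc (H Mk D) (cl Y (t2 s t h) g) ≤ ecc (H Mk D) (cl Y (t1 s) g) := by
      intro t h hl
      have e1 : Lv D (cl Y (t1 s) g) = Lv D (cl Y (t2 s t h) g) := by
        rw [hg.Lv, (Gate.low hg).Lv]
      rcases stg_r2 (Mk := Mk) D g s t h with ⟨h3, h4⟩ | h3
      · refine ⟨⟨e1, edge12 _ _ _ _ _, Or.inl ⟨hi, h4⟩⟩, ?_⟩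
        unfold Lt at hl
        rw [hst, h3, ev_iso hi, ev_C2 h4] at hl
        omega
      · exfalso
        refine lt_irr e1 ?_ hl
        omega
    by_cases hex : ∃ t, ∃ h : s ≠ t, Lt Mk D (cl Y (t2 s t h) g) (cl Y (t1 s) g)
    · obtain ⟨t, hst', hl'⟩ := hex
      have hu : ∀ t' (h : s ≠ t'), Lt Mk D (cl Y (t2 s t' h) g) (cl Y (t1 s) g) →
          cl Y (t2 s t' h) g = cl Y (t2 s t hst') g := by
        intro t' h hl
        obtain ⟨h1, h2⟩ := hC t' h hl
        obtain ⟨h3, h4⟩ := hC t hst' hl'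
        exact ecc_uniq (H_symm Mk D) (E_bound hMk) h1 h3 h2 h4
      refine ⟨cl Y (t2 s t hst') g, _, star ?_ ?_ ?_⟩
      · intro y he hl
        exact ⟨edge12 _ _ _ _ _, hl'⟩
      · intro y he hl hne
        rcases edge1 he with ⟨c, hc, rfl⟩ | ⟨t', h, rfl⟩
        · have := hch c hc hl
          subst this
          refine ⟨tri_c _ _ _ _, fun _ hx => mk_up hMk hx _⟩
        · exact absurd (hu _ _ hl) hne
      · intro y z ht hy hz
        obtain ⟨c, hc, t', h, ⟨rfl, rfl⟩ | ⟨rfl, rfl⟩⟩ := tri1 ht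
        · have h1 := hch c hc hy
          subst h1
          exact Or.inr (hu _ _ hz)
        · have h1 := hch c hc hz
          subst h1
          exact Or.inl (hu _ _ hy)
    · have key : ∀ y, (cx Y).edge (cl Y (t1 s) g) y → Lt Mk D y (cl Y (t1 s) g) →
          y = cl Y t0 g := by
        intro y he hl
        rcases edge1 he with ⟨c, hc, rfl⟩ | ⟨t', h, rfl⟩
        · rw [hch c hc hl]
        · exact absurd ⟨t', h, hl⟩ hex
      refine ⟨cl Y t0 g, _, star ?_ ?_ ?_⟩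
      · intro y he hl
        exact ⟨(cx Y).edge_symm _ _ (edge01 _ _ _), hlt⟩
      · intro y he hl hne
        exact absurd (key y he hl) hne
      · intro y z ht hy hz
        exact Or.inl (key y ((cx Y).tri_edge _ _ _ ht) hy)
  · have hst := stg_ga hg hi
    have hlt : Lt Mk D (cl Y t0 g) (cl Y (t1 s) g) := by
      right
      rw [Lv0, hg.Lv, stg0, hst]
      omega
    refine ⟨cl Y t0 g, _, star ?_ ?_ ?_⟩
    · intro y he hl
      exact ⟨(cx Y).edge_symm _ _ (edge01 _ _ _), hlt⟩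
    · intro y he hl hne
      rcases edge1 he with ⟨c, hc, rfl⟩ | ⟨t', h, rfl⟩
      · rw [hch c hc hl] at hne
        exact absurd rfl hne
      · refine ⟨tri_b _ _ _ _, ?_⟩
        intro hx _
        rw [VMk_cl hMk] at hx ⊢
        by_contra h0
        exact hi ((gate_iso hg).2 ⟨hx, h0⟩)
    · intro y z ht hy hz
      obtain ⟨c, hc, t', h, ⟨rfl, rfl⟩ | ⟨rfl, rfl⟩⟩ := tri1 ht
      · rw [hch c hc hy]
        exact Or.inl rfl
      · rw [hch c hc hz]
        exact Or.inr rfl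

end Pool.Agent.helper20.LT9
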