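import Pool.Agent.helper20.LT9.D

set_option autoImplicit false

/-!
# Module M9, part E: the links of the rank two classes, and the rank data
-/

namespace Pool.Agent.helper20.LT9

open Pool.Agent.helper34 Pool.Agent.helper36.LT

variable {S B : Type} {Y : Sys S B} {Mk : Set S → B → Prop}

lemma lv_ge_of_edge2 {D : BFS Y} {b c : B} {s t : S} (hst : s ≠ t) (hb : Low D b s t)
    (hr : Y.r {s, t} b c) : D.lev b ≤ D.lev c :=
  (D.low b c s t hst hb.1 hb.2.1 hb.2.2 hr).1

/-- a descending panel in a rank two class has a chamber of the same level as the class -/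
lemma dn2_panel {D : BFS Y} {b c : B} {s t a : S} (hst : s ≠ t) (hb : Low D b s t)
    (ha : a = s ∨ a = t) (hr : Y.r {s, t} b c)
    (hl : Lt Mk D (cl Y (t1 a) c) (cl Y (t2 s t hst) b)) :
    ∃ d, Y.r {a} c d ∧ Y.r {s, t} b d ∧ D.lev d = D.lev b ∧
      ((Gate D d a ∧ IsIso Mk D (cl Y (t1 a) c)) ∨ ∃ w, Flat D d a w) := by
  obtain ⟨d, hd1, hd2⟩ := Lv_mem D (t1 a) c
  have h1 : Lv D (cl Y (t1 a) c) ≤ Lv D (cl Y (t2 s t hst) b) := by
    unfold Lt at hl
    omega
  rw [hb.Lv] at h1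
  have h2 : Y.r {s, t} b d := by
    rcases ha with rfl | rfl
    · exact r2t hst hr (sub12 hst hd1)
    · exact r2t hst hr (sub12' hst hd1)
  have h3 := lv_ge_of_edge2 hst hb h2
  have h4 : D.lev d = D.lev b := by omega
  refine ⟨d, hd1, h2, h4, ?_⟩
  have h5 := low_of_lev hst hb h2 h4
  have h6 : cl Y (t1 a) c = cl Y (t1 a) d := cl_congr hd1
  rcases panel_cases D d a with h | h | h
  · left
    refine ⟨h, ?_⟩
    rw [h6]
    by_contra hi
    refine lt_irr ?_ ?_ hl
    · rw [hb.Lv, h6, h.Lv, h4]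
    · rw [h6, stg_ga h hi]
      rcases stg_r2 (Mk := Mk) D b s t hst with ⟨h3, h4⟩ | h3 <;> omega
  · exfalso
    rcases ha with rfl | rfl
    · exact h5.2.1 h
    · exact h5.2.2 h
  · exact Or.inr h

lemma lt2_chamber {D : BFS Y} {b c : B} {s t : S} (hst : s ≠ t) (hb : Low D b s t)
    (hl : D.lev c = D.lev b) : Lt Mk D (cl Y t0 c) (cl Y (t2 s t hst) b) := by
  right
  rw [hb.Lv, Lv0, stg0]
  refine ⟨hl, Or.inl ?_⟩
  rcases stg_r2 (Mk := Mk) D b s t hst with ⟨h3, h4⟩ | h3 <;> omega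

lemma dn2_chamber {D : BFS Y} {b c : B} {s t : S} (hst : s ≠ t) (hb : Low D b s t)
    (hr : Y.r {s, t} b c) (hl : Lt Mk D (cl Y t0 c) (cl Y (t2 s t hst) b)) :
    D.lev c = D.lev b := by
  have h1 : Lv D (cl Y t0 c) ≤ Lv D (cl Y (t2 s t hst) b) := by
    unfold Lt at hl
    omega
  rw [hb.Lv, Lv0] at h1
  have h3 := lv_ge_of_edge2 hst hb hr
  omega

lemma lt2_flat {D : BFS Y} {b c : B} {s t a w : S} (hst : s ≠ t) (hb : Low D b s t)
    (hf : Flat D c a w) (hl : D.lev c = D.lev b) :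
    Lt Mk D (cl Y (t1 a) c) (cl Y (t2 s t hst) b) := by
  right
  rw [hb.Lv, hf.Lv, stg_fl ⟨c, a, w, rfl, hf⟩]
  refine ⟨hl, Or.inl ?_⟩
  rcases stg_r2 (Mk := Mk) D b s t hst with ⟨h3, h4⟩ | h3 <;> omega

/-! ## `c3`-classes -/

lemma link_c3 {D : BFS Y} (hMk : Marks Y Mk) {b : B} {s t : S} (hst : s ≠ t)
    (hs : Gate D b s) (ht : Gate D b t)
    (h3 : ∀ c, Y.r {s, t} b c → D.lev c = D.lev b → c = b) :
    ∃ p dep, LinkOK Mk D (cl Y (t2 s t hst) b) p dep := by
  have hb : Low D b s t := hs.low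
  have hbb : Lt Mk D (cl Y t0 b) (cl Y (t2 s t hst) b) := lt2_chamber hst hb rfl
  have hch : ∀ c, Y.r {s, t} b c → Lt Mk D (cl Y t0 c) (cl Y (t2 s t hst) b) → c = b :=
    fun c hr hl => h3 c hr (dn2_chamber hst hb hr hl)
  have hpa : ∀ c a, (a = s ∨ a = t) → Y.r {s, t} b c →
      Lt Mk D (cl Y (t1 a) c) (cl Y (t2 s t hst) b) → cl Y (t1 a) c = cl Y (t1 a) b ∧
        Mk {a} b ∧ ¬ Mk ∅ b := by
    intro c a ha hr hl
    obtain ⟨d, h1, h2, h4, h5⟩ := dn2_panel hst hb ha hr hl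
    have hdb := h3 d h2 h4
    subst hdb
    have h6 : cl Y (t1 a) c = cl Y (t1 a) d := cl_congr h1
    have h7 : Gate D d a := by
      rcases ha with rfl | rfl
      · exact hs
      · exact ht
    refine ⟨h6, ?_⟩
    rcases h5 with ⟨-, h5⟩ | ⟨w, h5⟩
    · rw [h6] at h5
      exact (gate_iso h7).1 h5
    · exact absurd h7 h5.not_gate
  by_cases hex : ∃ a, (a = s ∨ a = t) ∧ Lt Mk D (cl Y (t1 a) b) (cl Y (t2 s t hst) b)
  · obtain ⟨a, ha, hla⟩ := hex
    have h0 := hpa b a ha (Y.refl _ _ (ty2 hst)) hla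
    have hu : ∀ c a', (a' = s ∨ a' = t) → Y.r {s, t} b c →
        Lt Mk D (cl Y (t1 a') c) (cl Y (t2 s t hst) b) → cl Y (t1 a') c = cl Y (t1 a) b := by
      intro c a' ha' hr hl
      have h1 := hpa c a' ha' hr hl
      by_cases haa : a = a'
      · subst haa
        exact h1.1
      · exact absurd (hMk.two a a' b haa h0.2.1 h1.2.1) h0.2.2
    have hea : (cx Y).edge (cl Y (t2 s t hst) b) (cl Y (t1 a) b) := by
      rcases ha with rfl | rfl
      · exact (cx Y).edge_symm _ _ (edge12 _ _ _ _ _)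
      · exact (cx Y).edge_symm _ _ (edge12' _ _ _ _ _)
    have htri : (cx Y).tri (cl Y (t2 s t hst) b) (cl Y t0 b) (cl Y (t1 a) b) := by
      rcases ha with rfl | rfl
      · exact tri_d _ _ _ _
      · rw [t2_comm]
        exact tri_d _ _ _ _
    refine ⟨cl Y (t1 a) b, _, star ?_ ?_ ?_⟩
    · intro y he hl
      exact ⟨hea, hla⟩
    · intro y he hl hne
      obtain ⟨c, hc, rfl | rfl | rfl⟩ := edge2 he
      · have := hch c hc hl
        subst this
        exact ⟨htri, fun _ hx => mk_up hMk hx _⟩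
      · exact absurd (hu c s (Or.inl rfl) hc hl) hne
      · exact absurd (hu c t (Or.inr rfl) hc hl) hne
    · intro y z ht hy hz
      obtain ⟨c, hc, a', ha', ⟨rfl, rfl⟩ | ⟨rfl, rfl⟩⟩ := tri2 ht
      · exact Or.inr (hu c a' ha' hc hz)
      · exact Or.inl (hu c a' ha' hc hy)
  · have key : ∀ y, (cx Y).edge (cl Y (t2 s t hst) b) y →
        Lt Mk D y (cl Y (t2 s t hst) b) → y = cl Y t0 b := by
      intro y he hl
      obtain ⟨c, hc, rfl | rfl | rfl⟩ := edge2 he
      · rw [hch c hc hl]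
      · refine absurd ⟨s, Or.inl rfl, ?_⟩ hex
        rw [← (hpa c s (Or.inl rfl) hc hl).1]
        exact hl
      · refine absurd ⟨t, Or.inr rfl, ?_⟩ hex
        rw [← (hpa c t (Or.inr rfl) hc hl).1]
        exact hl
    refine ⟨cl Y t0 b, _, star ?_ ?_ ?_⟩
    · intro y he hl
      exact ⟨(cx Y).edge_symm _ _ (edge02 _ _ _ _ _), hbb⟩
    · intro y he hl hne
      exact absurd (key y he hl) hne
    · intro y z ht hy hz
      exact Or.inl (key y ((cx Y).tri_edge _ _ _ ht) hy)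

/-! ## `c1`- and `c2`-classes -/

section c12

variable {D : BFS Y} {b : B} {s t w : S}

lemma flat_low (hst : s ≠ t) (hf : Flat D b s w) (hwt : w ≠ t) : Low D b s t := by
  rcases hf with h | h
  · refine ⟨?_, D.ed_ve _ _ _ _ h, D.ed_ve _ _ _ _ h⟩
    intro h'
    rcases D.ed_uniq _ _ _ _ _ h' h with h1 | h1
    · exact hwt h1.2.symm
    · exact hst h1.2.symm
  · exact low_of_ve h.1 h.2.symm hwt

lemma panel12 (hst : s ≠ t) (hf : Flat D b s w) (hwt : w ≠ t)
    (lo : ∀ c, Y.r {s, t} b c → D.lev c = D.lev b → Y.r {s} b c ∨ (D.Ve b w ∧ Y.r {t} b c))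
    (hc : D.Ve b w ∨ ∀ c, Y.r {s} b c → ¬ D.Ve c w) {c : B} {a : S} (ha : a = s ∨ a = t)
    (hr : Y.r {s, t} b c) (hl : Lt Mk D (cl Y (t1 a) c) (cl Y (t2 s t hst) b)) :
    cl Y (t1 a) c = cl Y (t1 s) b ∨ (D.Ve b w ∧ cl Y (t1 a) c = cl Y (t1 t) b) ∨
      ((cx Y).edge (cl Y (t2 s t hst) b) (cl Y (t1 a) c) ∧ IsIso Mk D (cl Y (t1 a) c)) := by
  have hb := flat_low hst hf hwt
  have hsw := hf.ne
  obtain ⟨d, h1, h2, h4, h5⟩ := dn2_panel hst hb ha hr hl
  have h6 : cl Y (t1 a) c = cl Y (t1 a) d := cl_congr h1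
  rcases h5 with ⟨-, h5⟩ | ⟨w', h5⟩
  · right; right
    refine ⟨?_, h5⟩
    have h7 : cl Y (t2 s t hst) b = cl Y (t2 s t hst) c := cl_congr hr
    rw [h7]
    rcases ha with rfl | rfl
    · exact (cx Y).edge_symm _ _ (edge12 _ _ _ _ _)
    · exact (cx Y).edge_symm _ _ (edge12' _ _ _ _ _)
  rw [h6]
  rcases ha with rfl | rfl
  · left
    rcases lo d h2 h4 with h7 | ⟨h7, h8⟩
    · exact (cl_congr h7).symm
    · by_cases hdb : d = b
      · rw [hdb]
      · exfalso
        have h9 := (D.flat_ve b d t w h7 hwt.symm h8 hdb).2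
        rcases h5 with h5 | h5
        · rcases D.ed_uniq _ _ _ _ _ h5 h9 with h10 | h10
          · exact hst h10.1
          · exact hsw h10.1
        · exact D.ed_ve _ _ _ _ h9 h5.1
  · rcases lo d h2 h4 with h7 | ⟨h7, h8⟩
    · by_cases hdw : D.Ve d w
      · right; left
        rcases hc with hc | hc
        · refine ⟨hc, ?_⟩
          by_cases hdb : d = b
          · rw [hdb]
          · have h9 := (D.flat_ve b d s w hc hsw h7 hdb).2
            exact absurd hdw (D.ed_ve _ _ _ _ h9)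
        · exact absurd hdw (hc d h7)
      · exfalso
        have h9 : D.Ed d s w := by
          rcases (hf.move h7).2 with h | h
          · exact h
          · exact absurd h.1 hdw
        rcases h5 with h5 | h5
        · rcases D.ed_uniq _ _ _ _ _ h5 h9 with h10 | h10
          · exact hst h10.1.symm
          · exact hwt h10.1.symm
        · exact D.ed_ve _ _ _ _ h9 h5.1
    · right; left
      exact ⟨h7, (cl_congr h8).symm⟩

lemma edge2a (hst : s ≠ t) {c : B} {a : S} (ha : a = s ∨ a = t) (hr : Y.r {s, t} b c) :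
    (cx Y).edge (cl Y (t2 s t hst) b) (cl Y (t1 a) c) := by
  have h7 : cl Y (t2 s t hst) b = cl Y (t2 s t hst) c := cl_congr hr
  rw [h7]
  rcases ha with rfl | rfl
  · exact (cx Y).edge_symm _ _ (edge12 _ _ _ _ _)
  · exact (cx Y).edge_symm _ _ (edge12' _ _ _ _ _)

lemma tri2a (hst : s ≠ t) {c : B} {a : S} (ha : a = s ∨ a = t) (hr : Y.r {s, t} b c) :
    (cx Y).tri (cl Y (t2 s t hst) b) (cl Y t0 c) (cl Y (t1 a) c) := by
  have h7 : cl Y (t2 s t hst) b = cl Y (t2 s t hst) c := cl_congr hr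
  rw [h7]
  rcases ha with rfl | rfl
  · exact tri_d _ _ _ _
  · rw [t2_comm]
    exact tri_d _ _ _ _

lemma tri2b (hst : s ≠ t) {c : B} {a : S} (ha : a = s ∨ a = t) (hr : Y.r {s, t} b c) :
    (cx Y).tri (cl Y (t2 s t hst) b) (cl Y (t1 a) c) (cl Y t0 c) := by
  have h7 : cl Y (t2 s t hst) b = cl Y (t2 s t hst) c := cl_congr hr
  rw [h7]
  rcases ha with rfl | rfl
  · exact tri_e _ _ _ _
  · rw [t2_comm]
    exact tri_e _ _ _ _

open Classical in
/-- no iso panel in the descending link -/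
lemma link12a (hMk : Marks Y Mk) (hst : s ≠ t) (hf : Flat D b s w) (hwt : w ≠ t)
    (lo : ∀ c, Y.r {s, t} b c → D.lev c = D.lev b → Y.r {s} b c ∨ (D.Ve b w ∧ Y.r {t} b c))
    (hc : D.Ve b w ∨ ∀ c, Y.r {s} b c → ¬ D.Ve c w)
    (hn : ∀ V, IsIso Mk D V → (cx Y).edge (cl Y (t2 s t hst) b) V →
      ¬ Lt Mk D V (cl Y (t2 s t hst) b))
    (hm : D.Ve b w → Mk {t} b → Mk ∅ b) :
    ∃ p dep, LinkOK Mk D (cl Y (t2 s t hst) b) p dep := by
  have hb := flat_low hst hf hwt
  have hpan : ∀ {c : B} {a : S}, (a = s ∨ a = t) → Y.r {s, t} b c →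
      Lt Mk D (cl Y (t1 a) c) (cl Y (t2 s t hst) b) → cl Y (t1 a) c = cl Y (t1 s) b ∨
        (D.Ve b w ∧ cl Y (t1 a) c = cl Y (t1 t) b) := by
    intro c a ha hr hl
    rcases panel12 hst hf hwt lo hc ha hr hl with h | h | ⟨h, h'⟩
    · exact Or.inl h
    · exact Or.inr h
    · exact absurd hl (hn _ h' h)
  set U := cl Y (t1 s) b with hU
  set U' := cl Y (t1 t) b with hU'
  have hUU : U' ≠ U := by
    intro h
    exact hst (t1_inj (cl_eq.1 h).1).symm
  set dep : Vert Y → ℕ := fun y => if y = U then 0 else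
    if (∃ c, Y.r {s} b c ∧ y = cl Y t0 c) then 1 else if y = U' then 2 else 3 with hdep
  have dU : dep U = 0 := by simp [hdep]
  have dU' : dep U' = 2 := by
    simp only [hdep]
    rw [if_neg hUU, if_neg, if_pos trivial]
    rintro ⟨c, -, h⟩
    exact t0_ne_t1 _ (cl_eq.1 h).1.symm
  have dc1 : ∀ c, Y.r {s} b c → dep (cl Y t0 c) = 1 := by
    intro c hc
    simp only [hdep]
    rw [if_neg, if_pos ⟨c, hc, rfl⟩]
    intro h
    exact t0_ne_t1 _ (cl_eq.1 h).1
  have dc3 : ∀ c, ¬ Y.r {s} b c → dep (cl Y t0 c) = 3 := by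
    intro c hc
    simp only [hdep]
    rw [if_neg, if_neg, if_neg]
    · intro h
      exact t0_ne_t1 _ (cl_eq.1 h).1
    · rintro ⟨d, hd, h⟩
      rw [cl0_inj h] at hc
      exact hc hd
    · intro h
      exact t0_ne_t1 _ (cl_eq.1 h).1
  have ltU : Lt Mk D U (cl Y (t2 s t hst) b) := lt2_flat hst hb hf rfl
  have ltU' : D.Ve b w → Lt Mk D U' (cl Y (t2 s t hst) b) := fun h =>
    lt2_flat hst hb (Or.inr ⟨h, hwt.symm⟩ : Flat D b t w) rfl
  have tt : Y.r {s, t} b b := Y.refl _ _ (ty2 hst)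
  refine ⟨U, dep, ?_, dU, ?_, ?_, ?_⟩
  · intro y he hl
    exact ⟨edge2a hst (Or.inl rfl) tt, ltU⟩
  · -- next
    have hP : ∀ c a, (a = s ∨ a = t) → Y.r {s, t} b c →
        Lt Mk D (cl Y (t1 a) c) (cl Y (t2 s t hst) b) → cl Y (t1 a) c ≠ U →
        ∃ z, (cx Y).tri (cl Y (t2 s t hst) b) (cl Y (t1 a) c) z ∧
          Lt Mk D z (cl Y (t2 s t hst) b) ∧ dep z < dep (cl Y (t1 a) c) ∧
          (VMk Y Mk (cl Y (t2 s t hst) b) → VMk Y Mk (cl Y (t1 a) c) → VMk Y Mk z) := by
      intro c a ha hr hl hne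
      rcases hpan ha hr hl with h | ⟨h1, h2⟩
      · exact absurd h hne
      · rw [h2]
        refine ⟨cl Y t0 b, tri2b hst (Or.inr rfl) tt, lt2_chamber hst hb rfl, ?_, ?_⟩
        · rw [dc1 b (Y.refl _ _ (ty1 s)), dU']
          omega
        · intro _ hx
          rw [VMk_cl hMk] at hx ⊢
          exact hm h1 hx
    intro y he hl hne
    obtain ⟨c, hr, rfl | rfl | rfl⟩ := edge2 he
    · have hlc := dn2_chamber hst hb hr hl
      by_cases hsc : Y.r {s} b c
      · have e : U = cl Y (t1 s) c := cl_congr hsc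
        refine ⟨U, ?_, ltU, ?_, fun _ hx => ?_⟩
        · rw [e]
          exact tri2a hst (Or.inl rfl) hr
        · rw [dU, dc1 c hsc]
          omega
        · rw [e]
          exact mk_up hMk hx _
      · rcases lo c hr hlc with h | ⟨h1, h2⟩
        · exact absurd h hsc
        · have e : U' = cl Y (t1 t) c := cl_congr h2
          refine ⟨U', ?_, ltU' h1, ?_, fun _ hx => ?_⟩
          · rw [e]
            exact tri2a hst (Or.inr rfl) hr
          · rw [dU', dc3 c hsc]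
            omega
          · rw [e]
            exact mk_up hMk hx _
    · exact hP c s (Or.inl rfl) hr hl hne
    · exact hP c t (Or.inr rfl) hr hl hne
  · -- uniqueness
    have key1 : ∀ c a, (a = s ∨ a = t) → Y.r {s, t} b c →
        Lt Mk D (cl Y t0 c) (cl Y (t2 s t hst) b) →
        Lt Mk D (cl Y (t1 a) c) (cl Y (t2 s t hst) b) → dep (cl Y (t1 a) c) < dep (cl Y t0 c) →
        (Y.r {s} b c → cl Y (t1 a) c = U) ∧ (¬ Y.r {s} b c → cl Y (t1 a) c = U') := by
      intro c a ha hr hlc hl hd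
      constructor
      · intro hsc
        rw [dc1 c hsc] at hd
        rcases hpan ha hr hl with h | ⟨h1, h2⟩
        · exact h
        · rw [h2, dU'] at hd
          omega
      · intro hsc
        rcases hpan ha hr hl with h | ⟨h1, h2⟩
        · exfalso
          obtain ⟨h3, h4⟩ := cl_eq.1 h
          have := t1_inj h3
          subst this
          exact hsc (r1s h4)
        · exact h2
    have key2 : ∀ c a, (a = s ∨ a = t) → Y.r {s, t} b c →
        Lt Mk D (cl Y t0 c) (cl Y (t2 s t hst) b) →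
        Lt Mk D (cl Y (t1 a) c) (cl Y (t2 s t hst) b) → dep (cl Y t0 c) < dep (cl Y (t1 a) c) →
        c = b := by
      intro c a ha hr hlc hl hd
      rcases hpan ha hr hl with h | ⟨h1, h2⟩
      · rw [h, dU] at hd
        omega
      · rw [h2, dU'] at hd
        by_cases hsc : Y.r {s} b c
        · obtain ⟨h3, h4⟩ := cl_eq.1 h2
          have := t1_inj h3
          subst this
          exact (Y.two s a b c hst hsc (r1s h4)).symm
        · rw [dc3 c hsc] at hd
          omega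
    intro y z z' htr htr' hy hz hz' hd hd'
    obtain ⟨c, hr, a, ha, ⟨rfl, rfl⟩ | ⟨rfl, rfl⟩⟩ := tri2 htr
    · obtain ⟨c', hr', a', ha', ⟨h1, rfl⟩ | ⟨rfl, h1⟩⟩ := tri2 htr'
      · have e := cl0_inj h1
        subst e
        have k1 := key1 c a ha hr hy hz hd
        have k2 := key1 c a' ha' hr hy hz' hd'
        by_cases hsc : Y.r {s} b c
        · exact (k1.1 hsc).trans (k2.1 hsc).symm
        · exact (k1.2 hsc).trans (k2.2 hsc).symm
      · exact absurd (cl_eq.1 h1).1 (t0_ne_t1 _)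
    · obtain ⟨c', hr', a', ha', ⟨h1, rfl⟩ | ⟨rfl, h1⟩⟩ := tri2 htr'
      · exact absurd (cl_eq.1 h1).1.symm (t0_ne_t1 _)
      · have k1 := key2 c a ha hr hz hy hd
        rw [h1] at hy hd'
        have k2 := key2 c' a' ha' hr' hz' hy hd'
        rw [k1, k2]
  · -- parity
    have hP : ∀ c a, (a = s ∨ a = t) → Y.r {s, t} b c →
        Lt Mk D (cl Y (t1 a) c) (cl Y (t2 s t hst) b) →
        dep (cl Y t0 c) ≠ dep (cl Y (t1 a) c) := by
      intro c a ha hr hl
      have h1 : dep (cl Y (t1 a) c) = 0 ∨ dep (cl Y (t1 a) c) = 2 := by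
        rcases hpan ha hr hl with h | ⟨h1, h2⟩
        · rw [h, dU]; exact Or.inl rfl
        · rw [h2, dU']; exact Or.inr rfl
      have h2 : dep (cl Y t0 c) = 1 ∨ dep (cl Y t0 c) = 3 := by
        by_cases hsc : Y.r {s} b c
        · exact Or.inl (dc1 c hsc)
        · exact Or.inr (dc3 c hsc)
      omega
    intro y z htr hy hz
    obtain ⟨c, hr, a, ha, ⟨rfl, rfl⟩ | ⟨rfl, rfl⟩⟩ := tri2 htr
    · exact hP c a ha hr hz
    · exact (hP c a ha hr hy).symm

open Classical in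
/-- one iso panel in the descending link -/
lemma link12b (hMk : Marks Y Mk) (hst : s ≠ t) (hf : Flat D b s w) (hwt : w ≠ t)
    (lo : ∀ c, Y.r {s, t} b c → D.lev c = D.lev b → Y.r {s} b c ∨ (D.Ve b w ∧ Y.r {t} b c))
    (hc : D.Ve b w ∨ ∀ c, Y.r {s} b c → ¬ D.Ve c w)
    {g : B} (hg : Gate D g t) (hsg : Y.r {s} b g) (hm1 : Mk {t} g) (hm0 : ¬ Mk ∅ g)
    (hltV : Lt Mk D (cl Y (t1 t) g) (cl Y (t2 s t hst) b))
    (hn : ∀ V, IsIso Mk D V → (cx Y).edge (cl Y (t2 s t hst) b) V →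
      Lt Mk D V (cl Y (t2 s t hst) b) → V = cl Y (t1 t) g) :
    ∃ p dep, LinkOK Mk D (cl Y (t2 s t hst) b) p dep := by
  have hb := flat_low hst hf hwt
  set V := cl Y (t1 t) g with hV
  have hpan : ∀ {c : B} {a : S}, (a = s ∨ a = t) → Y.r {s, t} b c →
      Lt Mk D (cl Y (t1 a) c) (cl Y (t2 s t hst) b) → cl Y (t1 a) c = cl Y (t1 s) b ∨
        (D.Ve b w ∧ cl Y (t1 a) c = cl Y (t1 t) b) ∨ cl Y (t1 a) c = V := by
    intro c a ha hr hl
    rcases panel12 hst hf hwt lo hc ha hr hl with h | h | ⟨h, h'⟩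
    · exact Or.inl h
    · exact Or.inr (Or.inl h)
    · exact Or.inr (Or.inr (hn _ h' h hl))
  have hgb : D.Ve b w → ¬ Y.r {t} g b := by
    intro hv h
    have := Y.two s t b g hst hsg (r1s h)
    rw [this] at hv
    exact hg.not_ve _ hv
  set U := cl Y (t1 s) b with hU
  set U' := cl Y (t1 t) b with hU'
  have hVU' : D.Ve b w → U' ≠ V := by
    intro hv h
    exact hgb hv (r1s (cl_eq.1 h).2)
  have hUU : U' ≠ U := by
    intro h
    exact hst (t1_inj (cl_eq.1 h).1).symm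
  have hVU : U ≠ V := by
    intro h
    exact hst (t1_inj (cl_eq.1 h).1)
  have hlevg : D.lev g = D.lev b := (hf.move hsg).1
  have hstg : Y.r {s, t} b g := sub12 hst hsg
  set dep : Vert Y → ℕ := fun y => if y = V then 0 else if y = cl Y t0 g then 1 else
    if y = U then 2 else if (∃ c, Y.r {s} b c ∧ y = cl Y t0 c) then 3 else
      if y = U' then 4 else 5 with hdep
  have n01 : ∀ (c : B) (d : B) (a : S), cl Y t0 c ≠ cl Y (t1 a) d :=
    fun c d a h => t0_ne_t1 _ (cl_eq.1 h).1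
  have dV : dep V = 0 := by simp [hdep]
  have dg : dep (cl Y t0 g) = 1 := by
    simp only [hdep]
    rw [if_neg (n01 _ _ _), if_pos trivial]
  have dU : dep U = 2 := by
    simp only [hdep]
    rw [if_neg hVU, if_neg (n01 _ _ _).symm, if_pos trivial]
  have dU' : U' ≠ V → dep U' = 4 := by
    intro h
    simp only [hdep]
    rw [if_neg h, if_neg (n01 _ _ _).symm, if_neg hUU, if_neg, if_pos trivial]
    rintro ⟨c, -, h⟩
    exact n01 _ _ _ h.symm
  have dc3 : ∀ c, Y.r {s} b c → c ≠ g → dep (cl Y t0 c) = 3 := by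
    intro c hc hcg
    simp only [hdep]
    rw [if_neg (n01 _ _ _), if_neg (fun h => hcg (cl0_inj h)), if_neg (n01 _ _ _),
      if_pos ⟨c, hc, rfl⟩]
  have dc5 : ∀ c, ¬ Y.r {s} b c → dep (cl Y t0 c) = 5 := by
    intro c hc
    simp only [hdep]
    rw [if_neg (n01 _ _ _), if_neg, if_neg (n01 _ _ _), if_neg, if_neg (n01 _ _ _)]
    · rintro ⟨d, hd, h⟩
      rw [cl0_inj h] at hc
      exact hc hd
    · intro h
      rw [cl0_inj h] at hc
      exact hc hsg
  have ltU : Lt Mk D U (cl Y (t2 s t hst) b) := lt2_flat hst hb hf rfl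
  have ltU' : D.Ve b w → Lt Mk D U' (cl Y (t2 s t hst) b) := fun h =>
    lt2_flat hst hb (Or.inr ⟨h, hwt.symm⟩ : Flat D b t w) rfl
  have tt : Y.r {s, t} b b := Y.refl _ _ (ty2 hst)
  refine ⟨V, dep, ?_, dV, ?_, ?_, ?_⟩
  · intro y he hl
    exact ⟨edge2a hst (Or.inr rfl) hstg, hltV⟩
  · -- next
    have hP : ∀ c a, (a = s ∨ a = t) → Y.r {s, t} b c →
        Lt Mk D (cl Y (t1 a) c) (cl Y (t2 s t hst) b) → cl Y (t1 a) c ≠ V →
        ∃ z, (cx Y).tri (cl Y (t2 s t hst) b) (cl Y (t1 a) c) z ∧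
          Lt Mk D z (cl Y (t2 s t hst) b) ∧ dep z < dep (cl Y (t1 a) c) ∧
          (VMk Y Mk (cl Y (t2 s t hst) b) → VMk Y Mk (cl Y (t1 a) c) → VMk Y Mk z) := by
      intro c a ha hr hl hne
      rcases hpan ha hr hl with h | ⟨h1, h2⟩ | h
      · rw [h]
        have e : U = cl Y (t1 s) g := cl_congr hsg
        refine ⟨cl Y t0 g, ?_, lt2_chamber hst hb hlevg, ?_, ?_⟩
        · rw [e]
          exact tri2b hst (Or.inl rfl) hstg
        · rw [dg, dU]
          omega
        · intro _ hx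
          rw [e, VMk_cl hMk] at hx
          exact absurd (hMk.two s t g hst hx hm1) hm0
      · rw [h2]
        have hbg : b ≠ g := by
          rintro rfl
          exact hg.not_ve _ h1
        refine ⟨cl Y t0 b, tri2b hst (Or.inr rfl) tt, lt2_chamber hst hb rfl, ?_, ?_⟩
        · rw [dc3 b (Y.refl _ _ (ty1 s)) hbg, dU' (hVU' h1)]
          omega
        · intro _ hx
          rw [VMk_cl hMk] at hx
          exact absurd (hMk.four s t g b hst hbg.symm (r1s hsg) hm1 hx) hm0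
      · exact absurd h hne
    intro y he hl hne
    obtain ⟨c, hr, rfl | rfl | rfl⟩ := edge2 he
    · have hlc := dn2_chamber hst hb hr hl
      by_cases hcg : c = g
      · subst hcg
        refine ⟨V, tri2a hst (Or.inr rfl) hr, hltV, ?_, fun _ hx => mk_up hMk hx _⟩
        rw [dV, dg]
        omega
      by_cases hsc : Y.r {s} b c
      · have e : U = cl Y (t1 s) c := cl_congr hsc
        refine ⟨U, ?_, ltU, ?_, fun _ hx => ?_⟩
        · rw [e]
          exact tri2a hst (Or.inl rfl) hr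
        · rw [dU, dc3 c hsc hcg]
          omega
        · rw [e]
          exact mk_up hMk hx _
      · rcases lo c hr hlc with h | ⟨h1, h2⟩
        · exact absurd h hsc
        · have e : U' = cl Y (t1 t) c := cl_congr h2
          refine ⟨U', ?_, ltU' h1, ?_, fun _ hx => ?_⟩
          · rw [e]
            exact tri2a hst (Or.inr rfl) hr
          · rw [dU' (hVU' h1), dc5 c hsc]
            omega
          · rw [e]
            exact mk_up hMk hx _
    · exact hP c s (Or.inl rfl) hr hl hne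
    · exact hP c t (Or.inr rfl) hr hl hne
  · -- uniqueness
    have key1 : ∀ c a, (a = s ∨ a = t) → Y.r {s, t} b c →
        Lt Mk D (cl Y t0 c) (cl Y (t2 s t hst) b) →
        Lt Mk D (cl Y (t1 a) c) (cl Y (t2 s t hst) b) → dep (cl Y (t1 a) c) < dep (cl Y t0 c) →
        (c = g → cl Y (t1 a) c = V) ∧ (c ≠ g → Y.r {s} b c → cl Y (t1 a) c = U) ∧
          (¬ Y.r {s} b c → cl Y (t1 a) c = U') := by
      intro c a ha hr hlc hl hd
      refine ⟨?_, ?_, ?_⟩
      · intro hcg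
        rw [hcg] at hd ⊢
        rw [dg] at hd
        rw [hcg] at hr hl
        rcases hpan ha hr hl with h | ⟨h1, h2⟩ | h
        · rw [h, dU] at hd
          omega
        · rw [h2, dU' (hVU' h1)] at hd
          omega
        · exact h
      · intro hcg hsc
        rw [dc3 c hsc hcg] at hd
        rcases hpan ha hr hl with h | ⟨h1, h2⟩ | h
        · exact h
        · rw [h2, dU' (hVU' h1)] at hd
          omega
        · exfalso
          obtain ⟨h3, h4⟩ := cl_eq.1 h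
          have := t1_inj h3
          subst this
          exact hcg (Y.two s a c g hst (r1t (r1s hsc) hsg) h4)
      · intro hsc
        rcases hpan ha hr hl with h | ⟨h1, h2⟩ | h
        · exfalso
          obtain ⟨h3, h4⟩ := cl_eq.1 h
          have := t1_inj h3
          subst this
          exact hsc (r1s h4)
        · exact h2
        · exfalso
          obtain ⟨h3, h4⟩ := cl_eq.1 h
          have := t1_inj h3
          subst this
          rcases lo c hr (dn2_chamber hst hb hr hlc) with h5 | ⟨h5, h6⟩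
          · exact hsc h5
          · exact hgb h5 (r1s (r1t h6 h4))
    have key2 : ∀ c a, (a = s ∨ a = t) → Y.r {s, t} b c →
        Lt Mk D (cl Y t0 c) (cl Y (t2 s t hst) b) →
        Lt Mk D (cl Y (t1 a) c) (cl Y (t2 s t hst) b) → dep (cl Y t0 c) < dep (cl Y (t1 a) c) →
        (cl Y (t1 a) c = U → c = g) ∧ (cl Y (t1 a) c ≠ U → c = b) := by
      intro c a ha hr hlc hl hd
      constructor
      · intro h
        rw [h, dU] at hd
        by_contra hcg
        by_cases hsc : Y.r {s} b c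
        · rw [dc3 c hsc hcg] at hd
          omega
        · rw [dc5 c hsc] at hd
          omega
      · intro hne
        rcases hpan ha hr hl with h | ⟨h1, h2⟩ | h
        · exact absurd h hne
        · rw [h2, dU' (hVU' h1)] at hd
          obtain ⟨h3, h4⟩ := cl_eq.1 h2
          have := t1_inj h3
          subst this
          by_cases hsc : Y.r {s} b c
          · exact (Y.two s a b c hst hsc (r1s h4)).symm
          · rw [dc5 c hsc] at hd
            omega
        · rw [h, dV] at hd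
          omega
    intro y z z' htr htr' hy hz hz' hd hd'
    obtain ⟨c, hr, a, ha, ⟨rfl, rfl⟩ | ⟨rfl, rfl⟩⟩ := tri2 htr
    · obtain ⟨c', hr', a', ha', ⟨h1, rfl⟩ | ⟨rfl, h1⟩⟩ := tri2 htr'
      · have e := cl0_inj h1
        subst e
        have k1 := key1 c a ha hr hy hz hd
        have k2 := key1 c a' ha' hr hy hz' hd'
        by_cases hsc : Y.r {s} b c
        · by_cases hcg : c = g
          · exact (k1.1 hcg).trans (k2.1 hcg).symm
          · exact (k1.2.1 hcg hsc).trans (k2.2.1 hcg hsc).symm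
        · exact (k1.2.2 hsc).trans (k2.2.2 hsc).symm
      · exact absurd (cl_eq.1 h1).1 (t0_ne_t1 _)
    · obtain ⟨c', hr', a', ha', ⟨h1, rfl⟩ | ⟨rfl, h1⟩⟩ := tri2 htr'
      · exact absurd (cl_eq.1 h1).1.symm (t0_ne_t1 _)
      · have k1 := key2 c a ha hr hz hy hd
        have hy' := hy
        rw [h1] at hy' hd'
        have k2 := key2 c' a' ha' hr' hz' hy' hd'
        by_cases hyU : cl Y (t1 a) c = U
        · rw [k1.1 hyU, k2.1 (h1.symm.trans hyU)]
        · rw [k1.2 hyU, k2.2 (fun h => hyU (h1.trans h))]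
  · -- parity
    have hP : ∀ c a, (a = s ∨ a = t) → Y.r {s, t} b c →
        Lt Mk D (cl Y (t1 a) c) (cl Y (t2 s t hst) b) →
        dep (cl Y t0 c) ≠ dep (cl Y (t1 a) c) := by
      intro c a ha hr hl
      have h1 : dep (cl Y (t1 a) c) = 0 ∨ dep (cl Y (t1 a) c) = 2 ∨
          dep (cl Y (t1 a) c) = 4 := by
        rcases hpan ha hr hl with h | ⟨h1, h2⟩ | h
        · rw [h, dU]; exact Or.inr (Or.inl rfl)
        · rw [h2, dU' (hVU' h1)]; exact Or.inr (Or.inr rfl)
        · rw [h, dV]; exact Or.inl rfl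
      have h2 : dep (cl Y t0 c) = 1 ∨ dep (cl Y t0 c) = 3 ∨ dep (cl Y t0 c) = 5 := by
        by_cases hcg : c = g
        · rw [hcg]; exact Or.inl dg
        by_cases hsc : Y.r {s} b c
        · exact Or.inr (Or.inl (dc3 c hsc hcg))
        · exact Or.inr (Or.inr (dc5 c hsc))
      omega
    intro y z htr hy hz
    obtain ⟨c, hr, a, ha, ⟨rfl, rfl⟩ | ⟨rfl, rfl⟩⟩ := tri2 htr
    · exact hP c a ha hr hz
    · exact (hP c a ha hr hy).symm

end c12

/-- iso panels of the same level in a class -/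
lemma iso_in {D : BFS Y} {b : B} {s t : S} (hst : s ≠ t) (hb : Low D b s t) {V : Vert Y}
    (hV : IsIso Mk D V) (he : (cx Y).edge (cl Y (t2 s t hst) b) V)
    (hl : Lt Mk D V (cl Y (t2 s t hst) b)) :
    ∃ g a, (a = s ∨ a = t) ∧ Y.r {s, t} b g ∧ V = cl Y (t1 a) g ∧ Gate D g a ∧ Mk {a} g ∧
      ¬ Mk ∅ g ∧ D.lev g = D.lev b := by
  obtain ⟨g, a, rfl, hg, hm, hn⟩ := hV
  have h1 : Lv D (cl Y (t1 a) g) ≤ Lv D (cl Y (t2 s t hst) b) := by
    unfold Lt at hl
    omega
  rw [hb.Lv, hg.Lv] at h1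
  obtain ⟨c, hc1, hc2⟩ := edge2 he
  have key : (a = s ∨ a = t) ∧ Y.r {s, t} b g := by
    rcases hc2 with hc2 | hc2 | hc2
    · exact absurd (cl_eq.1 hc2).1.symm (t0_ne_t1 _)
    · obtain ⟨h1, h2⟩ := cl_eq.1 hc2
      have := t1_inj h1
      subst this
      exact ⟨Or.inl rfl, r2t hst hc1 (sub12 hst (r1s h2))⟩
    · obtain ⟨h1, h2⟩ := cl_eq.1 hc2
      have := t1_inj h1
      subst this
      exact ⟨Or.inr rfl, r2t hst hc1 (sub12' hst (r1s h2))⟩
  have h2 := lv_ge_of_edge2 hst hb key.2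
  exact ⟨g, a, key.1, key.2, rfl, hg, hm, hn, by omega⟩

/-- the `c1`-classes -/
lemma link_c1 {D : BFS Y} (hMk : Marks Y Mk) {b : B} {s t w : S} (hst : s ≠ t)
    (he : D.Ed b s w) (hwt : w ≠ t) (hnv : ∀ c, Y.r {s} b c → ¬ D.Ve c w) :
    ∃ p dep, LinkOK Mk D (cl Y (t2 s t hst) b) p dep := by
  have hf : Flat D b s w := Or.inl he
  have hb := flat_low hst hf hwt
  have lo' : ∀ c, Y.r {s, t} b c → D.lev c = D.lev b → Y.r {s} b c :=
    fun c hr hl => D.low1 b c s t w hst he hwt hnv hr hl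
  have lo : ∀ c, Y.r {s, t} b c → D.lev c = D.lev b → Y.r {s} b c ∨ (D.Ve b w ∧ Y.r {t} b c) :=
    fun c hr hl => Or.inl (lo' c hr hl)
  by_cases hex : ∃ V, IsIso Mk D V ∧ (cx Y).edge (cl Y (t2 s t hst) b) V ∧
      Lt Mk D V (cl Y (t2 s t hst) b)
  · obtain ⟨V, h1, h2, h3⟩ := hex
    obtain ⟨g, a, ha, hr, rfl, hg, hm, hn, hlev⟩ := iso_in hst hb h1 h2 h3
    have hsg := lo' g hr hlev
    rcases ha with rfl | rfl
    · exact absurd hg (hf.move hsg).2.not_gate
    refine link12b hMk hst hf hwt lo (Or.inr hnv) hg hsg hm hn h3 ?_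
    intro V' h1' h2' h3'
    obtain ⟨g', a', ha', hr', rfl, hg', hm', hn', hlev'⟩ := iso_in hst hb h1' h2' h3'
    have hsg' := lo' g' hr' hlev'
    rcases ha' with rfl | rfl
    · exact absurd hg' (hf.move hsg').2.not_gate
    by_cases hgg : g = g'
    · rw [hgg]
    · exact absurd (hMk.four s a' g g' hst hgg (r1t (r1s hsg) hsg') hm hm') hn
  · refine link12a hMk hst hf hwt lo (Or.inr hnv) ?_ ?_
    · intro V h1 h2 h3
      exact hex ⟨V, h1, h2, h3⟩
    · intro h
      exact absurd h (D.ed_ve _ _ _ _ he)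

/-- the `c2`-classes -/
lemma link_c2 {D : BFS Y} (hMk : Marks Y Mk) {b : B} {s t w : S} (hst : s ≠ t)
    (hv : D.Ve b w) (hs : w ≠ s) (ht : w ≠ t) :
    ∃ p dep, LinkOK Mk D (cl Y (t2 s t hst) b) p dep := by
  have hb := low_of_ve hv hs ht
  have hC2 : ∀ s t (hst : s ≠ t), w ≠ s → w ≠ t → IsC2 D (cl Y (t2 s t hst) b) :=
    fun s t hst h1 h2 => ⟨b, s, t, hst, w, rfl, hv, h1, h2⟩
  -- uniqueness of the descending iso panel
  have huniq : ∀ s t (hst : s ≠ t), w ≠ s → w ≠ t → ∀ V V', IsIso Mk D V →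
      (cx Y).edge (cl Y (t2 s t hst) b) V →
      Lt Mk D V (cl Y (t2 s t hst) b) → IsIso Mk D V' → (cx Y).edge (cl Y (t2 s t hst) b) V' →
      Lt Mk D V' (cl Y (t2 s t hst) b) → V = V' := by
    intro s t hst hs ht V V' h1 h2 h3 h1' h2' h3'
    have hb := low_of_ve hv hs ht
    have key : ∀ V, IsIso Mk D V → (cx Y).edge (cl Y (t2 s t hst) b) V →
        Lt Mk D V (cl Y (t2 s t hst) b) → H Mk D (cl Y (t2 s t hst) b) V ∧
          ecc (H Mk D) V ≤ ecc (H Mk D) (cl Y (t2 s t hst) b) := by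
      intro V h1 h2 h3
      obtain ⟨g, a, ha, hr, rfl, hg, hm, hn, hlev⟩ := iso_in hst hb h1 h2 h3
      have e1 : Lv D (cl Y (t2 s t hst) b) = Lv D (cl Y (t1 a) g) := by
        rw [hb.Lv, hg.Lv, hlev]
      refine ⟨⟨e1, h2, Or.inr ⟨hC2 s t hst hs ht, h1⟩⟩, ?_⟩
      have h5 := stg_iso h1
      unfold Lt at h3
      rcases stg_r2 (Mk := Mk) D b s t hst with ⟨h6, h7⟩ | h6
      · rw [ev_iso h1, ev_C2 h7] at h3
        omega
      · exfalso
        have : stg Mk D (cl Y (t2 s t hst) b) = 2 := by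
          unfold stg
          rw [if_neg, if_neg, if_pos (Or.inr (hC2 s t hst hs ht))]
          · exact fun h' => t0_ne_t2 s t hst h'.symm
          · rintro ⟨c, u, w, h1, -⟩
            exact t1_ne_t2 _ _ _ _ (cl_eq.1 h1).1.symm
        omega
    obtain ⟨k1, k2⟩ := key V h1 h2 h3
    obtain ⟨k3, k4⟩ := key V' h1' h2' h3'
    exact ecc_uniq (H_symm Mk D) (E_bound hMk) k1 k3 k2 k4
  have lo : ∀ s t (hst : s ≠ t), w ≠ s → w ≠ t → ∀ c, Y.r {s, t} b c → D.lev c = D.lev b →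
      Y.r {s} b c ∨ (D.Ve b w ∧ Y.r {t} b c) := by
    intro s t hst hs ht c hr hl
    exact (D.low2 b c s t w hst hv hs ht hr hl).imp id (fun h => ⟨hv, h⟩)
  by_cases hex : ∃ V, IsIso Mk D V ∧ (cx Y).edge (cl Y (t2 s t hst) b) V ∧
      Lt Mk D V (cl Y (t2 s t hst) b)
  · obtain ⟨V, h1, h2, h3⟩ := hex
    -- wlog the gate is on the side `s`
    have main : ∀ s t (hst : s ≠ t), w ≠ s → w ≠ t → (cx Y).edge (cl Y (t2 s t hst) b) V →
        Lt Mk D V (cl Y (t2 s t hst) b) → Side Mk D b s t V →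
        ∃ p dep, LinkOK Mk D (cl Y (t2 s t hst) b) p dep := by
      intro s t hst hs ht h2 h3 hside
      obtain ⟨g, g1, g2, rfl, g4, g5, g6⟩ := hside
      refine link12b hMk hst (Or.inr ⟨hv, hs.symm⟩) ht (lo s t hst hs ht) (Or.inl hv) g4 g1 g5 g6
        h3 ?_
      intro V' h1' h2' h3'
      exact huniq s t hst hs ht V' _ h1' h2' h3' h1 h2 h3
    have hlev : Lv D V = Lv D (cl Y (t2 s t hst) b) := by
      obtain ⟨g, a, ha, hr, rfl, hg, hm, hn, hlev⟩ := iso_in hst hb h1 h2 h3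
      rw [hb.Lv, hg.Lv, hlev]
    rcases side_of hst hv hs ht h1 h2 hlev with h | h
    · exact main s t hst hs ht h2 h3 h
    · rw [t2_comm] at h2 h3 ⊢
      exact main t s hst.symm ht hs h2 h3 h
  · have hno : ∀ V, IsIso Mk D V → (cx Y).edge (cl Y (t2 s t hst) b) V →
        ¬ Lt Mk D V (cl Y (t2 s t hst) b) := fun V h1 h2 h3 => hex ⟨V, h1, h2, h3⟩
    by_cases hm : Mk {t} b → Mk ∅ b
    · exact link12a hMk hst (Or.inr ⟨hv, hs.symm⟩) ht (lo s t hst hs ht) (Or.inl hv) hno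
        (fun _ => hm)
    · push Not at hm
      rw [t2_comm] at hno ⊢
      refine link12a hMk hst.symm (Or.inr ⟨hv, ht.symm⟩) hs (lo t s hst.symm ht hs) (Or.inl hv)
        hno ?_
      intro _ h
      exact hMk.two s t b hst h hm.1

lemma link2 {D : BFS Y} (hMk : Marks Y Mk) (b : B) {s t : S} (hst : s ≠ t) :
    ∃ p dep, LinkOK Mk D (cl Y (t2 s t hst) b) p dep := by
  obtain ⟨c, hc1, hc2⟩ := exists_low D b s t hst
  have e : cl Y (t2 s t hst) b = cl Y (t2 s t hst) c := cl_congr hc1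
  rw [e]
  clear e hc1
  by_cases h0 : c = D.b0
  · refine link_c3 hMk hst (Or.inl h0) (Or.inl h0) ?_
    intro d hr hl
    exact D.low3 c d s t hst (Or.inl h0) hr hl
  rcases D.state c h0 with ⟨u, v, h⟩ | ⟨w, h⟩
  · have huv := D.ed_ne _ _ _ h
    have key : ∀ s t (hst : s ≠ t) w, D.Ed c s w → w ≠ t →
        ∃ p dep, LinkOK Mk D (cl Y (t2 s t hst) c) p dep := by
      intro s t hst w he hwt
      by_cases hex : ∃ d, Y.r {s} c d ∧ D.Ve d w
      · obtain ⟨d, hd1, hd2⟩ := hex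
        have e : cl Y (t2 s t hst) c = cl Y (t2 s t hst) d := cl_congr (sub12 hst hd1)
        rw [e]
        exact link_c2 hMk hst hd2 (D.ed_ne _ _ _ he).symm hwt
      · push Not at hex
        exact link_c1 hMk hst he hwt hex
    by_cases hsu : s = u
    · subst hsu
      refine key s t hst v h ?_
      rintro rfl
      exact hc2.1 h
    by_cases hsv : s = v
    · subst hsv
      refine key s t hst u (D.ed_symm _ _ _ h) ?_
      rintro rfl
      exact hc2.1 (D.ed_symm _ _ _ h)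
    by_cases htu : t = u
    · subst htu
      rw [t2_comm]
      refine key t s hst.symm v h (Ne.symm hsv)
    by_cases htv : t = v
    · subst htv
      rw [t2_comm]
      refine key t s hst.symm u (D.ed_symm _ _ _ h) (Ne.symm hsu)
    · refine link_c3 hMk hst (Or.inr ⟨u, v, h, hsu, hsv⟩) (Or.inr ⟨u, v, h, htu, htv⟩) ?_
      intro d hr hl
      exact D.low3 c d s t hst (Or.inr ⟨u, v, h, hsu, hsv, htu, htv⟩) hr hl
  · refine link_c2 hMk hst h ?_ ?_
    · rintro rfl
      exact hc2.2.1 h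
    · rintro rfl
      exact hc2.2.2 h

lemma link1 {D : BFS Y} (hMk : Marks Y Mk) (b : B) (s : S) :
    ∃ p dep, LinkOK Mk D (cl Y (t1 s) b) p dep := by
  rcases exists_gate_or_flat D b s with ⟨g, h1, h2⟩ | ⟨w, h⟩
  · have e : cl Y (t1 s) b = cl Y (t1 s) g := cl_congr h1
    rw [e]
    exact link1_gate hMk h2
  · exact link1_flat h

lemma link_all {D : BFS Y} (hMk : Marks Y Mk) (x : Vert Y) :
    ∃ p dep, LinkOK Mk D x p dep := by
  obtain ⟨T, b, rfl⟩ := cl_surj x
  rcases ty_cases T with rfl | ⟨s, rfl⟩ | ⟨s, t, hst, rfl⟩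
  · exact link0 hMk b
  · exact link1 hMk b s
  · exact link2 hMk b hst

/-- **Module M9** -/
theorem rank_data (Y : Sys S B) (_hS : ∃ s t : S, s ≠ t) (D : BFS Y) (Mk : Set S → B → Prop)
    (hMk : Marks Y Mk) : Nonempty (RankData Y Mk) := by
  classical
  choose p dep hL using (link_all hMk (D := D))
  have hn : ∀ x y, (cx Y).edge x y → Lt Mk D y x → y ≠ p x → ∃ z, (cx Y).tri x y z ∧
      Lt Mk D z x ∧ dep x z < dep x y ∧ (VMk Y Mk x → VMk Y Mk y → VMk Y Mk z) :=
    fun x => (hL x).nxt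
  let nx : Vert Y → Vert Y → Vert Y := fun x y =>
    if h : (cx Y).edge x y ∧ Lt Mk D y x ∧ y ≠ p x then (hn x y h.1 h.2.1 h.2.2).choose else y
  have nxs : ∀ x y, (cx Y).edge x y → Lt Mk D y x → y ≠ p x → (cx Y).tri x y (nx x y) ∧
      Lt Mk D (nx x y) x ∧ dep x (nx x y) < dep x y ∧
        (VMk Y Mk x → VMk Y Mk y → VMk Y Mk (nx x y)) := by
    intro x y h1 h2 h3
    have e : nx x y = (hn x y h1 h2 h3).choose := dif_pos ⟨h1, h2, h3⟩
    rw [e]
    exact (hn x y h1 h2 h3).choose_spec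
  have tedge : ∀ x y z, (cx Y).tri x y z → (cx Y).edge x z := fun x y z h =>
    (cx Y).edge_symm _ _ ((cx Y).tri_edge _ _ _ ((cx Y).tri_rot _ _ _ ((cx Y).tri_rot _ _ _ h)))
  refine ⟨⟨Lt Mk D, Lt_wf D, Lt_total D, p, nx, dep, ?_, ?_, ?_, ?_⟩⟩
  · intro x y h1 h2
    exact (hL x).p_dn y h1 h2
  · intro x y h1 h2 h3
    obtain ⟨k1, k2, k3, -⟩ := nxs x y h1 h2 h3
    exact ⟨k1, k2, k3⟩
  · intro x y z ht hy hz
    have hxy := (cx Y).tri_edge _ _ _ ht
    have hxz := tedge _ _ _ ht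
    have htr : (cx Y).tri x z y := (cx Y).tri_rot _ _ _ ((cx Y).tri_swap _ _ _ ht)
    have key : ∀ y z, (cx Y).edge x y → (cx Y).tri x y z → Lt Mk D y x → Lt Mk D z x →
        dep x z < dep x y → y ≠ p x ∧ z = nx x y := by
      intro y z hxy ht hy hz hd
      have hyp : y ≠ p x := by
        intro h
        rw [h, (hL x).dep_p] at hd
        omega
      obtain ⟨k1, k2, k3, -⟩ := nxs x y hxy hy hyp
      exact ⟨hyp, (hL x).uniq y z _ ht k1 hy hz k2 hd k3⟩
    rcases lt_or_gt_of_ne ((hL x).ne y z ht hy hz) with h | h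
    · right
      exact key z y hxz htr hz hy h
    · left
      exact key y z hxy ht hy hz h
  · intro x y h1 h2 h3 h4 h5
    exact (nxs x y h1 h2 h3).2.2.2 h4 h5

end Pool.Agent.helper20.LT9
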